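import Pool.Agent.H515.MB.Wt

/-!
# The configuration: an abelian normal subgroup containing the supports
-/

set_option autoImplicit false
set_option linter.style.haveILetI false
set_option linter.unusedSectionVars false

open scoped BigOperators Classical
open Pool.Agent.H254R3.IN

noncomputable section

namespace Pool.Agent.H515.MB

variable {G : Type} [Group G] [Fintype G]
variable {V : Type} [AddCommGroup V] [Module ℂ V] [FiniteDimensional ℂ V]
variable {W : Type} [AddCommGroup W] [Module ℂ W] [FiniteDimensional ℂ W]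

/-- the configuration to be excluded -/
structure Cfg (ρ : Representation ℂ G V) (σ : Representation ℂ G W) (L : Subgroup G)
    (r s d : ℕ) : Prop where
  irr1 : ρ.IsIrreducible
  irr2 : σ.IsIrreducible
  inj : ∀ g, ρ g = 1 → g = 1
  ab : ∀ x ∈ L, ∀ y ∈ L, x * y = y * x
  der : ∀ g h : G, g * h * g⁻¹ * h⁻¹ ∈ L
  off1 : ∀ x ∉ L, ρ.character x = 0
  off2 : ∀ x ∉ L, σ.character x = 0
  cop : Nat.Coprime r s
  rs : s < r
  spos : 0 < s
  dpos : 0 < d
  deg1 : Module.finrank ℂ V = r * d
  deg2 : Module.finrank ℂ W = s * d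
  semi : ∀ x, (s * ρ.character x - r * σ.character x) *
    (r * ρ.character x + s * σ.character x) = 0

namespace Cfg

variable {ρ : Representation ℂ G V} {σ : Representation ℂ G W} {L : Subgroup G} {r s d : ℕ}

lemma normal (c : Cfg ρ σ L r s d) : L.Normal := ⟨fun x hx g => by
  have := L.mul_mem (c.der g x) hx
  rwa [inv_mul_cancel_right] at this⟩

lemma mem_cent {g : G} : g ∈ Subgroup.centralizer (L : Set G) ↔ ∀ x ∈ L, g * x = x * g := by
  rw [Subgroup.mem_centralizer_iff]
  exact ⟨fun h x hx => (h x hx).symm, fun h x hx => (h x hx).symm⟩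

lemma cent_le_St (c : Cfg ρ σ L r s d) {l : G → ℂ} (h : LC L l) :
    Subgroup.centralizer (L : Set G) ≤ St l := by
  intro g hg x
  rw [mem_cent] at hg
  by_cases hx : x ∈ L
  · rw [hg x hx, mul_inv_cancel_right]
  · rw [h.off _ hx, h.off]
    intro h'
    apply hx
    have := c.normal.conj_mem _ h' g⁻¹
    have e : g⁻¹ * (g * x * g⁻¹) * g⁻¹⁻¹ = x := by group
    rwa [e] at this

lemma L_le_cent (c : Cfg ρ σ L r s d) : L ≤ Subgroup.centralizer (L : Set G) := by
  intro g hg
  rw [mem_cent]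
  exact fun x hx => c.ab g hg x hx

lemma St_normal (c : Cfg ρ σ L r s d) {l : G → ℂ} (h : LC L l) : (St l).Normal := by
  refine ⟨fun g hg k => ?_⟩
  have h1 : k * g * k⁻¹ * g⁻¹ ∈ St l := c.cent_le_St h (c.L_le_cent (c.der k g))
  have := (St l).mul_mem h1 hg
  rwa [inv_mul_cancel_right] at this

/-- the stabilizer of a weight acts trivially by commutators -/
lemma comm_one (c : Cfg ρ σ L r s d) {U : Type} [AddCommGroup U] [Module ℂ U]
    [FiniteDimensional ℂ U] (τ : Representation ℂ G U) (hτ : τ.IsIrreducible) {l : G → ℂ}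
    (h : LC L l) (hP : P τ l ≠ 0) {g x : G} (hg : g ∈ St l) (hx : x ∈ L) :
    τ (g * x * g⁻¹ * x⁻¹) = 1 := by
  apply rho_eq_one τ c.normal hτ h hP (c.der g x)
  intro k
  have e : k * (g * x * g⁻¹ * x⁻¹) * k⁻¹ =
      ((k * g * k⁻¹) * (k * x * k⁻¹) * (k * g * k⁻¹)⁻¹) * (k * x * k⁻¹)⁻¹ := by group
  have h1 : k * g * k⁻¹ ∈ St l := (c.St_normal h).conj_mem g hg k
  have h2 : k * x * k⁻¹ ∈ L := c.normal.conj_mem x hx k
  rw [e, h.mulr _ (L.inv_mem h2), h1, h.mul_inv h2]

lemma St_eq (c : Cfg ρ σ L r s d) {l : G → ℂ} (h : LC L l) (hP : P ρ l ≠ 0) :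
    St l = Subgroup.centralizer (L : Set G) := by
  apply le_antisymm _ (c.cent_le_St h)
  intro g hg
  rw [mem_cent]
  intro x hx
  have h1 := c.inj _ (c.comm_one ρ c.irr1 h hP hg hx)
  have h2 : g * x * g⁻¹ * x⁻¹ * (x * g) = g * x := by group
  rw [← h2, h1, one_mul]

/-- the numerical consequence -/
lemma num (c : Cfg ρ σ L r s d) {l m : G → ℂ} (h : LC L l) (hP : P ρ l ≠ 0) (h' : LC L m)
    (hP' : P σ m ≠ 0) :
    s = 1 ∧ Nat.card (St m) = Nat.card (Subgroup.centralizer (L : Set G)) * r ^ 2 := by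
  have h1 := index_formula ρ c.irr1 c.normal c.off1 h hP
  have h2 := index_formula σ c.irr2 c.normal c.off2 h' hP'
  rw [c.St_eq h hP, c.deg1] at h1
  rw [c.deg2] at h2
  obtain ⟨j, hj⟩ := Subgroup.card_dvd_of_le (c.cent_le_St h')
  rw [hj] at h2
  have hZ : 0 < Nat.card (Subgroup.centralizer (L : Set G)) := Nat.card_pos
  have hL : 0 < Nat.card L := Nat.card_pos
  have hd := c.dpos
  have h3 : r ^ 2 = j * s ^ 2 := by
    have h4 : Nat.card (Subgroup.centralizer (L : Set G)) * Nat.card L * d ^ 2 * r ^ 2 =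
        Nat.card (Subgroup.centralizer (L : Set G)) * Nat.card L * d ^ 2 * (j * s ^ 2) := by
      calc _ = Nat.card (Subgroup.centralizer (L : Set G)) * Nat.card L * (r * d) ^ 2 := by ring
        _ = _ := by rw [h1, ← h2]; ring
    exact Nat.eq_of_mul_eq_mul_left (by positivity) h4
  have h5 : s = 1 := by
    have h6 : s ^ 2 ∣ r ^ 2 := ⟨j, by rw [h3, mul_comm]⟩
    have h7 : s ∣ r := (Nat.pow_dvd_pow_iff two_ne_zero).mp h6
    have h8 := Nat.dvd_gcd h7 dvd_rfl
    rw [c.cop] at h8
    exact Nat.dvd_one.mp h8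
  refine ⟨h5, ?_⟩
  rw [hj, h3, h5]
  ring

/-- the kernel of `σ` in `L` -/
def K (σ : Representation ℂ G W) (L : Subgroup G) : Subgroup G := L ⊓ MonoidHom.ker σ

lemma mem_K {x : G} : x ∈ K σ L ↔ x ∈ L ∧ σ x = 1 := by
  unfold K
  rw [Subgroup.mem_inf]
  rfl

lemma K_normal (c : Cfg ρ σ L r s d) : (K σ L).Normal := by
  refine ⟨fun x hx g => ?_⟩
  rw [mem_K] at hx ⊢
  refine ⟨c.normal.conj_mem x hx.1 g, ?_⟩
  rw [map_mul, map_mul, hx.2, mul_one, ← map_mul, mul_inv_cancel, map_one]

lemma pow_card (τ : Representation ℂ G V) (x : G) : τ x ^ Nat.card G = 1 := by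
  rw [← map_pow, pow_card_eq_one', map_one]

/-- values of `φ` on the kernel of `ψ` -/
lemma phi_K (c : Cfg ρ σ L r s d) (hs : s = 1) {z : G} (hz : z ∈ K σ L) (hz1 : z ≠ 1) :
    (r : ℂ) * ρ.character z = -d := by
  subst hs
  have h1 : σ.character z = d := by
    have : σ.character z = LinearMap.trace ℂ W (σ z) := rfl
    rw [this, (mem_K.mp hz).2, LinearMap.trace_one, c.deg2, one_mul]
  have h2 := c.semi z
  rw [h1] at h2
  push_cast at h2
  rcases mul_eq_zero.mp h2 with h3 | h3
  · exfalso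
    apply hz1
    apply c.inj
    apply eq_one_of_trace (ρ z) Nat.card_pos (pow_card ρ z)
    have : ρ.character z = LinearMap.trace ℂ V (ρ z) := rfl
    rw [← this, c.deg1]
    push_cast
    linear_combination h3
  · linear_combination h3

/-- a nontrivial normal subgroup has zero sum -/
lemma sum_zero (c : Cfg ρ σ L r s d) {N : Subgroup G} (hN : N.Normal) {z : G} (hz : z ∈ N)
    (hz1 : z ≠ 1) (y : G) : ∑ x : G, (if x ∈ N then ρ.character (y * x) else 0) = 0 := by
  have hLC : LC N (fun x => if x ∈ N then 1 else 0) := by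
    refine ⟨by simp [N.one_mem], ?_, ?_⟩
    · intro x hx y hy
      simp [hx, hy, N.mul_mem hx hy]
    · intro x hx
      simp [hx]
  have hP : P ρ (fun x => if x ∈ N then 1 else 0) = 0 := by
    by_contra hP
    apply hz1
    apply c.inj
    apply rho_eq_one ρ hN c.irr1 hLC hP hz
    intro g
    simp [hN.conj_mem z hz g]
  have h1 := trace_mul_P ρ (fun x => if x ∈ N then 1 else 0) y
  rw [hP, mul_zero, map_zero] at h1
  refine Eq.trans ?_ h1.symm
  refine Finset.sum_congr rfl fun x _ => ?_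
  simp only [N.inv_mem_iff]
  split_ifs <;> simp

lemma card_sub (c : Cfg ρ σ L r s d) (hs : s = 1) {N : Subgroup G} (hN : N.Normal)
    (hle : N ≤ K σ L) {z : G} (hz : z ∈ N) (hz1 : z ≠ 1) : Nat.card N = r ^ 2 + 1 := by
  have h1 := c.sum_zero hN hz hz1 1
  have hrc : (r : ℂ) ≠ 0 := by
    have := c.rs
    exact_mod_cast (by omega : r ≠ 0)
  have hdc : (d : ℂ) ≠ 0 := by exact_mod_cast c.dpos.ne'
  have h2 : ∀ x : G, (r : ℂ) * (if x ∈ N then ρ.character (1 * x) else 0) =
      (if x ∈ N then -(d : ℂ) else 0) + (if x = 1 then ((r : ℂ) ^ 2 + 1) * d else 0) := by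
    intro x
    rw [one_mul]
    by_cases hx : x ∈ N
    · rw [if_pos hx, if_pos hx]
      by_cases hx1 : x = 1
      · rw [if_pos hx1, hx1, Representation.char_one, c.deg1]
        push_cast
        ring
      · rw [if_neg hx1, c.phi_K hs (hle hx) hx1, add_zero]
    · rw [if_neg hx, if_neg hx]
      have hx1 : x ≠ 1 := fun h => hx (h ▸ N.one_mem)
      rw [if_neg hx1]
      ring
  have h3 : (0 : ℂ) = -(Nat.card N) * d + ((r : ℂ) ^ 2 + 1) * d := by
    calc (0 : ℂ) = r * ∑ x : G, (if x ∈ N then ρ.character (1 * x) else 0) := by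
          rw [h1, mul_zero]
      _ = ∑ x : G, ((if x ∈ N then -(d : ℂ) else 0) +
            (if x = 1 then ((r : ℂ) ^ 2 + 1) * d else 0)) := by
          rw [Finset.mul_sum]
          exact Finset.sum_congr rfl fun x _ => h2 x
      _ = _ := by
          rw [Finset.sum_add_distrib, Finset.sum_ite, Finset.sum_const_zero, add_zero,
            Finset.sum_const, Finset.sum_ite_eq' Finset.univ (1 : G)]
          simp only [Finset.mem_univ, if_true, nsmul_eq_mul]
          rw [Nat.card_eq_fintype_card (α := N), Fintype.card_subtype]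
          ring
  have h4 : ((Nat.card N : ℂ) - ((r : ℂ) ^ 2 + 1)) * d = 0 := by linear_combination h3
  have h5 := (mul_eq_zero.mp h4).resolve_right hdc
  have h6 : (Nat.card N : ℂ) = ((r ^ 2 + 1 : ℕ) : ℂ) := by
    push_cast
    linear_combination h5
  exact_mod_cast h6

end Cfg

end Pool.Agent.H515.MB
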