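import Pool.Agent.H515.MB.Core

/-!
# The configuration, continued: the kernel of the small character in `L`
-/

set_option autoImplicit false
set_option linter.style.haveILetI false
set_option linter.unusedSectionVars false

open scoped BigOperators Classical
open Pool.Agent.H254R3.IN

noncomputable section

namespace Pool.Agent.H515.MB

variable {G : Type} [Group G] [Fintype G]
variable {V : Type} [AddCommGroup V] [Module ℂ V] [FiniteDimensional ℂ V]
variable {W : Type} [AddCommGroup W] [Module ℂ W] [FiniteDimensional ℂ W]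

namespace Cfg

variable {ρ : Representation ℂ G V} {σ : Representation ℂ G W} {L : Subgroup G} {r s d : ℕ}
variable {m : G → ℂ}

lemma r_gt (c : Cfg ρ σ L r s d) : 1 < r := by
  have h1 := c.rs
  have h2 := c.spos
  omega

lemma exists_a (c : Cfg ρ σ L r s d)
    (hcard : Nat.card (St m) = Nat.card (Subgroup.centralizer (L : Set G)) * r ^ 2) :
    ∃ a ∈ St m, a ∉ Subgroup.centralizer (L : Set G) := by
  by_contra hcon
  push Not at hcon
  have h1 : St m ≤ Subgroup.centralizer (L : Set G) := hcon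
  have h2 := Nat.le_of_dvd Nat.card_pos (Subgroup.card_dvd_of_le h1)
  rw [hcard] at h2
  have h3 : 0 < Nat.card (Subgroup.centralizer (L : Set G)) := Nat.card_pos
  have h4 := c.r_gt
  have h5 : 4 ≤ r ^ 2 := by nlinarith
  have h6 := Nat.mul_le_mul_left (Nat.card (Subgroup.centralizer (L : Set G))) h5
  omega

lemma comm_mem_K (c : Cfg ρ σ L r s d) (hm : LC L m) (hP : P σ m ≠ 0) {g x : G}
    (hg : g ∈ St m) (hx : x ∈ L) : g * x * g⁻¹ * x⁻¹ ∈ K σ L := by
  rw [mem_K]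
  exact ⟨c.der g x, c.comm_one σ c.irr2 hm hP hg hx⟩

lemma exists_K (c : Cfg ρ σ L r s d) (hm : LC L m) (hP : P σ m ≠ 0) {a : G}
    (ha : a ∈ St m) (haZ : a ∉ Subgroup.centralizer (L : Set G)) : ∃ z ∈ K σ L, z ≠ 1 := by
  rw [mem_cent] at haZ
  push Not at haZ
  obtain ⟨x, hx, hne⟩ := haZ
  refine ⟨_, c.comm_mem_K hm hP ha hx, fun h => hne ?_⟩
  have h2 : a * x * a⁻¹ * x⁻¹ * (x * a) = a * x := by group
  rw [← h2, h, one_mul]

lemma card_K (c : Cfg ρ σ L r s d) (hs : s = 1) (hm : LC L m) (hP : P σ m ≠ 0) {a : G}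
    (ha : a ∈ St m) (haZ : a ∉ Subgroup.centralizer (L : Set G)) :
    Nat.card (K σ L) = r ^ 2 + 1 := by
  obtain ⟨z, hz, hz1⟩ := c.exists_K hm hP ha haZ
  exact c.card_sub hs c.K_normal le_rfl hz hz1

lemma K_le_L : K σ L ≤ L := fun _ hx => (mem_K.mp hx).1

lemma pow_K (c : Cfg ρ σ L r s d) {z : G} (hz : z ∈ K σ L) : z ^ Nat.card (K σ L) = 1 := by
  have h := pow_card_eq_one' (x := (⟨z, hz⟩ : K σ L))
  have := congrArg (Subtype.val) h
  simpa only [SubmonoidClass.coe_pow, OneMemClass.coe_one] using this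

/-- an element of the stabilizer that centralizes `K` centralizes `L` -/
lemma fix_all (c : Cfg ρ σ L r s d) (hs : s = 1) (hm : LC L m) (hP : P σ m ≠ 0)
    (hcard : Nat.card (St m) = Nat.card (Subgroup.centralizer (L : Set G)) * r ^ 2) {g : G}
    (hg : g ∈ St m) (hgK : ∀ z ∈ K σ L, g * z = z * g) :
    g ∈ Subgroup.centralizer (L : Set G) := by
  obtain ⟨a, ha, haZ⟩ := c.exists_a hcard
  have hK := c.card_K hs hm hP ha haZ
  haveI := c.normal
  have h1 : g ^ (r ^ 2 + 1) ∈ Subgroup.centralizer (L : Set G) := by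
    rw [mem_cent]
    intro x hx
    set z := g * x * g⁻¹ * x⁻¹ with hz
    have hzK : z ∈ K σ L := c.comm_mem_K hm hP hg hx
    have hgx : g * x = z * x * g := by rw [hz]; group
    have hgz : g * z = z * g := hgK z hzK
    have key : ∀ i : ℕ, g ^ i * x = z ^ i * x * g ^ i := by
      intro i
      induction i with
      | zero => simp
      | succ i ih =>
        have hgzi : g * z ^ i = z ^ i * g := by
          have : Commute g z := hgz
          exact this.pow_right i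
        calc g ^ (i + 1) * x = g * (g ^ i * x) := by rw [pow_succ']; group
          _ = g * z ^ i * x * g ^ i := by rw [ih]; group
          _ = z ^ i * (g * x) * g ^ i := by rw [hgzi]; group
          _ = z ^ (i + 1) * x * g ^ (i + 1) := by rw [hgx, pow_succ, pow_succ']; group
    have h2 := key (r ^ 2 + 1)
    rw [← hK, c.pow_K hzK, one_mul] at h2
    rw [← hK]
    exact h2
  have h2 : g ^ (r ^ 2) ∈ Subgroup.centralizer (L : Set G) := by
    have h3 : (Subgroup.centralizer (L : Set G)).relIndex (St m) = r ^ 2 := by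
      have h4 := Subgroup.relIndex_mul_relIndex ⊥ (Subgroup.centralizer (L : Set G)) (St m)
        bot_le (c.cent_le_St hm)
      rw [Subgroup.relIndex_bot_left, Subgroup.relIndex_bot_left, hcard] at h4
      exact Nat.eq_of_mul_eq_mul_left Nat.card_pos h4
    rw [← h3]
    exact Subgroup.pow_relIndex_mem _ hg
  have h3 : g = g ^ (r ^ 2 + 1) * (g ^ (r ^ 2))⁻¹ := by
    rw [pow_succ' g (r ^ 2), mul_inv_cancel_right]
  rw [h3]
  exact Subgroup.mul_mem _ h1 (Subgroup.inv_mem _ h2)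

/-- a subgroup of `K` that is normal in `G` is `1` or `K` -/
lemma K_irr (c : Cfg ρ σ L r s d) (hs : s = 1) {N : Subgroup G} (hN : N.Normal)
    (hle : N ≤ K σ L) {z : G} (hz : z ∈ N) (hz1 : z ≠ 1) : N = K σ L := by
  have h1 := c.card_sub hs hN hle hz hz1
  have h2 := c.card_sub hs c.K_normal le_rfl (hle hz) hz1
  exact Subgroup.eq_of_le_of_card_ge hle (by rw [h1, h2])

/-- elements outside the centralizer act fixed point freely on `K` -/
lemma fpf (c : Cfg ρ σ L r s d) (hs : s = 1) (hm : LC L m) (hP : P σ m ≠ 0)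
    (hcard : Nat.card (St m) = Nat.card (Subgroup.centralizer (L : Set G)) * r ^ 2) {a : G}
    (ha : a ∈ St m) (haZ : a ∉ Subgroup.centralizer (L : Set G)) {z : G} (hz : z ∈ K σ L)
    (haz : a * z = z * a) : z = 1 := by
  by_contra hz1
  apply haZ
  apply c.fix_all hs hm hP hcard ha
  set N : Subgroup G := K σ L ⊓ Subgroup.centralizer {a} with hN
  have hmem : ∀ x, x ∈ N ↔ x ∈ K σ L ∧ a * x = x * a := by
    intro x
    rw [hN, Subgroup.mem_inf, Subgroup.mem_centralizer_singleton_iff]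
    exact ⟨fun h => ⟨h.1, h.2.symm⟩, fun h => ⟨h.1, h.2.symm⟩⟩
  have hNn : N.Normal := by
    refine ⟨fun x hx g => ?_⟩
    rw [hmem] at hx ⊢
    refine ⟨c.K_normal.conj_mem x hx.1 g, ?_⟩
    set u := a⁻¹ * g⁻¹ * a * g with hu
    have huL : u ∈ L := by
      have := c.der a⁻¹ g⁻¹
      rwa [inv_inv, inv_inv] at this
    have hux : u * x = x * u := c.ab u huL x (K_le_L hx.1)
    have hag : a * g = g * a * u := by rw [hu]; group
    have e1 : a * (g * x * g⁻¹) = g * (a * (u * x)) * g⁻¹ := by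
      calc a * (g * x * g⁻¹) = (a * g) * x * g⁻¹ := by group
        _ = g * (a * (u * x)) * g⁻¹ := by rw [hag]; group
    have e2 : g * x * g⁻¹ * a = g * (x * a * u) * g⁻¹ := by
      have : g⁻¹ * a = a * u * g⁻¹ := by rw [hu]; group
      calc g * x * g⁻¹ * a = g * x * (g⁻¹ * a) := by group
        _ = g * (x * a * u) * g⁻¹ := by rw [this]; group
    rw [e1, e2, hux, ← mul_assoc a x u, hx.2]
  have h1 := c.K_irr hs hNn inf_le_left ((hmem z).mpr ⟨hz, haz⟩) hz1
  intro w hw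
  rw [← h1, hmem] at hw
  exact hw.2

/-- the centralizer of `a` in `L` -/
def L0 (L : Subgroup G) (a : G) : Subgroup G := L ⊓ Subgroup.centralizer {a}

lemma mem_L0 {a x : G} : x ∈ L0 L a ↔ x ∈ L ∧ a * x = x * a := by
  rw [L0, Subgroup.mem_inf, Subgroup.mem_centralizer_singleton_iff]
  exact ⟨fun h => ⟨h.1, h.2.symm⟩, fun h => ⟨h.1, h.2.symm⟩⟩

lemma L0_normal (c : Cfg ρ σ L r s d) (a : G) : (L0 L a).Normal := by
  refine ⟨fun x hx g => ?_⟩
  rw [mem_L0] at hx ⊢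
  refine ⟨c.normal.conj_mem x hx.1 g, ?_⟩
  set u := a⁻¹ * g⁻¹ * a * g with hu
  have huL : u ∈ L := by
    have := c.der a⁻¹ g⁻¹
    rwa [inv_inv, inv_inv] at this
  have hux : u * x = x * u := c.ab u huL x hx.1
  have hag : a * g = g * a * u := by rw [hu]; group
  have e1 : a * (g * x * g⁻¹) = g * (a * (u * x)) * g⁻¹ := by
    calc a * (g * x * g⁻¹) = (a * g) * x * g⁻¹ := by group
      _ = g * (a * (u * x)) * g⁻¹ := by rw [hag]; group
  have e2 : g * x * g⁻¹ * a = g * (x * a * u) * g⁻¹ := by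
    have : g⁻¹ * a = a * u * g⁻¹ := by rw [hu]; group
    calc g * x * g⁻¹ * a = g * x * (g⁻¹ * a) := by group
      _ = g * (x * a * u) * g⁻¹ := by rw [this]; group
  rw [e1, e2, hux, ← mul_assoc a x u, hx.2]

/-- `L = K L₀` -/
lemma L_eq (c : Cfg ρ σ L r s d) (hs : s = 1) (hm : LC L m) (hP : P σ m ≠ 0)
    (hcard : Nat.card (St m) = Nat.card (Subgroup.centralizer (L : Set G)) * r ^ 2) {a : G}
    (ha : a ∈ St m) (haZ : a ∉ Subgroup.centralizer (L : Set G)) {x : G} (hx : x ∈ L) :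
    ∃ z ∈ K σ L, ∃ y ∈ L0 L a, x = z * y := by
  set f : K σ L → K σ L := fun z => ⟨a * z * a⁻¹ * (z : G)⁻¹, c.comm_mem_K hm hP ha (K_le_L z.2)⟩
    with hf
  have hinj : Function.Injective f := by
    rintro ⟨z, hz⟩ ⟨w, hw⟩ h
    have h1 : a * z * a⁻¹ * z⁻¹ = a * w * a⁻¹ * w⁻¹ := congrArg Subtype.val h
    have h2 : a * (w⁻¹ * z) = (w⁻¹ * z) * a := by
      have hwz : w⁻¹ * z = z * w⁻¹ := c.ab _ (L.inv_mem (K_le_L hw)) _ (K_le_L hz)
      have h4 : z = (a * w * a⁻¹ * w⁻¹)⁻¹ * (a * z * a⁻¹) := by rw [← h1]; group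
      have h5 : a * w * a⁻¹ ∈ L := c.normal.conj_mem w (K_le_L hw) a
      have h6 : w * (a * w * a⁻¹)⁻¹ = (a * w * a⁻¹)⁻¹ * w :=
        c.ab _ (K_le_L hw) _ (L.inv_mem h5)
      have h7 : z = w * ((a * w * a⁻¹)⁻¹ * (a * z * a⁻¹)) := by
        rw [← mul_assoc, h6]
        calc z = (a * w * a⁻¹ * w⁻¹)⁻¹ * (a * z * a⁻¹) := h4
          _ = w * (a * w * a⁻¹)⁻¹ * (a * z * a⁻¹) := by group
          _ = _ := by rw [h6]
      have h8 : w⁻¹ * z = a * (w⁻¹ * z) * a⁻¹ := by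
        calc w⁻¹ * z = w⁻¹ * (w * ((a * w * a⁻¹)⁻¹ * (a * z * a⁻¹))) := by rw [← h7]
          _ = a * (w⁻¹ * z) * a⁻¹ := by group
      calc a * (w⁻¹ * z) = (a * (w⁻¹ * z) * a⁻¹) * a := by group
        _ = (w⁻¹ * z) * a := by rw [← h8]
    have h3 := c.fpf hs hm hP hcard ha haZ ((K σ L).mul_mem ((K σ L).inv_mem hw) hz) h2
    apply Subtype.ext
    change z = w
    have : z = w * (w⁻¹ * z) := by group
    rw [this, h3, mul_one]
  have hsurj := Finite.surjective_of_injective hinj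
  obtain ⟨⟨z, hz⟩, hzx⟩ := hsurj ⟨_, c.comm_mem_K hm hP ha hx⟩
  have h1 : a * z * a⁻¹ * z⁻¹ = a * x * a⁻¹ * x⁻¹ := congrArg Subtype.val hzx
  refine ⟨z, hz, z⁻¹ * x, ?_, by group⟩
  rw [mem_L0]
  refine ⟨L.mul_mem (L.inv_mem (K_le_L hz)) hx, ?_⟩
  have h5 : a * z * a⁻¹ ∈ L := c.normal.conj_mem z (K_le_L hz) a
  have h6 : z * (a * z * a⁻¹)⁻¹ = (a * z * a⁻¹)⁻¹ * z := c.ab _ (K_le_L hz) _ (L.inv_mem h5)
  have h7 : x = z * ((a * z * a⁻¹)⁻¹ * (a * x * a⁻¹)) := by
    rw [← mul_assoc, h6]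
    calc x = (a * x * a⁻¹ * x⁻¹)⁻¹ * (a * x * a⁻¹) := by group
      _ = (a * z * a⁻¹ * z⁻¹)⁻¹ * (a * x * a⁻¹) := by rw [← h1]
      _ = z * (a * z * a⁻¹)⁻¹ * (a * x * a⁻¹) := by group
      _ = _ := by rw [h6]
  have h8 : z⁻¹ * x = a * (z⁻¹ * x) * a⁻¹ := by
    calc z⁻¹ * x = z⁻¹ * (z * ((a * z * a⁻¹)⁻¹ * (a * x * a⁻¹))) := by rw [← h7]
      _ = a * (z⁻¹ * x) * a⁻¹ := by group
  calc a * (z⁻¹ * x) = (a * (z⁻¹ * x) * a⁻¹) * a := by group
    _ = (z⁻¹ * x) * a := by rw [← h8]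

/-- the stabilizer centralizes `L₀` -/
lemma E_cent (c : Cfg ρ σ L r s d) (hs : s = 1) (hm : LC L m) (hP : P σ m ≠ 0)
    (hcard : Nat.card (St m) = Nat.card (Subgroup.centralizer (L : Set G)) * r ^ 2) {a : G}
    (ha : a ∈ St m) (haZ : a ∉ Subgroup.centralizer (L : Set G)) {g y : G} (hg : g ∈ St m)
    (hy : y ∈ L0 L a) : g * y = y * g := by
  have h1 := c.comm_mem_K hm hP hg (mem_L0.mp hy).1
  have h2 : g * y * g⁻¹ * y⁻¹ ∈ L0 L a :=
    (L0 L a).mul_mem ((c.L0_normal a).conj_mem y hy g) ((L0 L a).inv_mem hy)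
  have h3 := c.fpf hs hm hP hcard ha haZ h1 (mem_L0.mp h2).2
  have h4 : g * y = (g * y * g⁻¹ * y⁻¹) * (y * g) := by group
  rw [h4, h3, one_mul]

/-- commutators of the centralizer lie in `L₀` -/
lemma D_comm (c : Cfg ρ σ L r s d) (a : G) {x y : G}
    (hx : x ∈ Subgroup.centralizer (L : Set G)) (hy : y ∈ Subgroup.centralizer (L : Set G)) :
    x⁻¹ * y⁻¹ * x * y ∈ L0 L a := by
  rw [mem_L0]
  have hL : x⁻¹ * y⁻¹ * x * y ∈ L := by
    have := c.der x⁻¹ y⁻¹
    rwa [inv_inv, inv_inv] at this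
  refine ⟨hL, ?_⟩
  rw [mem_cent] at hx hy
  set u := x⁻¹ * a * x * a⁻¹ with hu
  set v := y⁻¹ * a * y * a⁻¹ with hv
  have huL : u ∈ L := by
    have := c.der x⁻¹ a
    rwa [inv_inv] at this
  have hvL : v ∈ L := by
    have := c.der y⁻¹ a
    rwa [inv_inv] at this
  have hxu : Commute x u := hx u huL
  have hxv : Commute x v := hx v hvL
  have hyu : Commute y u := hy u huL
  have hyv : Commute y v := hy v hvL
  have huv : Commute u v := c.ab u huL v hvL
  have e1 : a * x * a⁻¹ = x * u := by rw [hu]; group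
  have e2 : a * y * a⁻¹ = y * v := by rw [hv]; group
  have e3 : (x * u)⁻¹ * (y * v)⁻¹ * (x * u) * (y * v) = x⁻¹ * y⁻¹ * x * y := by
    have h1 : (x * u) * (y * v) = x * y * (u * v) := by
      calc (x * u) * (y * v) = x * (u * y) * v := by group
        _ = x * (y * u) * v := by rw [← hyu.eq]
        _ = x * y * (u * v) := by group
    have h2 : (y * v) * (x * u) = y * x * (u * v) := by
      calc (y * v) * (x * u) = y * (v * x) * u := by group
        _ = y * (x * v) * u := by rw [← hxv.eq]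
        _ = y * x * (v * u) := by group
        _ = y * x * (u * v) := by rw [huv.eq]
    have h3 : (x * u)⁻¹ * (y * v)⁻¹ = ((y * v) * (x * u))⁻¹ := by group
    have h4 := c.ab _ hL _ (L.mul_mem huL hvL)
    rw [h3, mul_assoc, h1, h2]
    calc (y * x * (u * v))⁻¹ * (x * y * (u * v)) =
          (u * v)⁻¹ * ((x⁻¹ * y⁻¹ * x * y) * (u * v)) := by group
      _ = x⁻¹ * y⁻¹ * x * y := by rw [h4, inv_mul_cancel_left]
  have e4 : a * (x⁻¹ * y⁻¹ * x * y) * a⁻¹ = x⁻¹ * y⁻¹ * x * y := by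
    calc a * (x⁻¹ * y⁻¹ * x * y) * a⁻¹ =
        (a * x * a⁻¹)⁻¹ * (a * y * a⁻¹)⁻¹ * (a * x * a⁻¹) * (a * y * a⁻¹) := by group
      _ = x⁻¹ * y⁻¹ * x * y := by rw [e1, e2, e3]
  calc a * (x⁻¹ * y⁻¹ * x * y) = (a * (x⁻¹ * y⁻¹ * x * y) * a⁻¹) * a := by group
    _ = _ := by rw [e4]

end Cfg

end Pool.Agent.H515.MB
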