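import Pool.Agent.H515.MB.Core2

/-!
# The configuration, continued: the stabilizer modulo the centralizer is cyclic
-/

set_option autoImplicit false
set_option linter.style.haveILetI false
set_option linter.unusedSectionVars false

open scoped BigOperators Classical IsMulCommutative
open Pool.Agent.H254R3.IN

noncomputable section

namespace Pool.Agent.H515.MB

variable {G : Type} [Group G] [Fintype G]
variable {V : Type} [AddCommGroup V] [Module ℂ V] [FiniteDimensional ℂ V]
variable {W : Type} [AddCommGroup W] [Module ℂ W] [FiniteDimensional ℂ W]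

/-- conjugation on an abelian normal subgroup as additive endomorphisms -/
def actHom (N : Subgroup G) (hN : N.Normal) (hab : ∀ x ∈ N, ∀ y ∈ N, x * y = y * x) :
    letI : CommGroup N :=
      { (inferInstance : Group N) with mul_comm := fun x y => Subtype.ext (hab x x.2 y y.2) }
    G →* AddMonoid.End (Additive N) :=
  letI : CommGroup N :=
    { (inferInstance : Group N) with mul_comm := fun x y => Subtype.ext (hab x x.2 y y.2) }
  { toFun := fun g =>
      { toFun := fun z => Additive.ofMul ⟨g * z.toMul.1 * g⁻¹, hN.conj_mem _ z.toMul.2 g⟩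
        map_zero' := by
          apply congrArg Additive.ofMul
          apply Subtype.ext
          change g * 1 * g⁻¹ = 1
          group
        map_add' := by
          intro x y
          apply congrArg Additive.ofMul
          apply Subtype.ext
          change g * (x.toMul.1 * y.toMul.1) * g⁻¹ =
            (g * x.toMul.1 * g⁻¹) * (g * y.toMul.1 * g⁻¹)
          group }
    map_one' := by
      ext z
      change 1 * (z.toMul.1 : G) * 1⁻¹ = z.toMul.1
      group
    map_mul' := by
      intro g h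
      ext z
      change (g * h) * (z.toMul.1 : G) * (g * h)⁻¹ = g * (h * z.toMul.1 * h⁻¹) * g⁻¹
      group }

/-- If every nontrivial subgroup of the nontrivial abelian group `N` that is normal in `G` is `N`
and commutators of `G` centralize `N`, then modulo the centralizer of `N` every subgroup of `G` is
generated by one element. -/
theorem exists_gen_aux (N : Subgroup G) (hN : N.Normal) (hab : ∀ x ∈ N, ∀ y ∈ N, x * y = y * x)
    (hne : ∃ z ∈ N, z ≠ 1)
    (hirr : ∀ M : Subgroup G, M.Normal → M ≤ N → (∃ z ∈ M, z ≠ 1) → M = N)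
    (hcomm : ∀ g h : G, ∀ z ∈ N, (g * h) * z * (g * h)⁻¹ = (h * g) * z * (h * g)⁻¹)
    (E : Subgroup G) :
    ∃ a ∈ E, ∀ g ∈ E, ∃ k : ℤ, ∀ z ∈ N, (a ^ k * g) * z = z * (a ^ k * g) := by
  letI : CommGroup N :=
    { (inferInstance : Group N) with mul_comm := fun x y => Subtype.ext (hab x x.2 y y.2) }
  set f : G →* AddMonoid.End (Additive N) := actHom N hN hab with hf
  have hfv : ∀ (g : G) (z : Additive N), ((f g z).toMul : G) = g * (z.toMul : G) * g⁻¹ := by
    intro g z
    rfl
  set S : Set (AddMonoid.End (Additive N)) := Set.range f with hS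
  have hScomm : ∀ x ∈ S, ∀ y ∈ S, x * y = y * x := by
    rintro _ ⟨g, rfl⟩ _ ⟨h, rfl⟩
    rw [← map_mul, ← map_mul]
    ext z
    exact hcomm g h z.toMul.1 z.toMul.2
  letI hmc := Subring.isMulCommutative_closure hScomm
  set R := Subring.closure S with hR
  letI : CommRing R := inferInstance
  haveI : Nontrivial (Additive N) := by
    obtain ⟨z, hz, hz1⟩ := hne
    refine ⟨Additive.ofMul ⟨z, hz⟩, 0, fun h => hz1 ?_⟩
    have := congrArg (fun w : Additive N => (w.toMul : G)) h
    exact this
  have hfR : ∀ g, f g ∈ R := fun g => Subring.subset_closure ⟨g, rfl⟩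
  -- nonzero elements of `R` are injective
  have hinj : ∀ x : R, x ≠ 0 → ∀ z : Additive N, (x : AddMonoid.End (Additive N)) z = 0 → z = 0 := by
    intro x hx z hz
    by_contra hz0
    apply hx
    set M : Subgroup G :=
      { carrier := {g | ∃ h : g ∈ N, (x : AddMonoid.End (Additive N)) (Additive.ofMul ⟨g, h⟩) = 0}
        one_mem' := ⟨N.one_mem, by
          exact map_zero (x : AddMonoid.End (Additive N))⟩
        mul_mem' := by
          rintro a b ⟨ha, ha'⟩ ⟨hb, hb'⟩
          refine ⟨N.mul_mem ha hb, ?_⟩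
          have : (Additive.ofMul (⟨a * b, N.mul_mem ha hb⟩ : N)) =
            Additive.ofMul ⟨a, ha⟩ + Additive.ofMul ⟨b, hb⟩ := rfl
          rw [this, map_add, ha', hb', add_zero]
        inv_mem' := by
          rintro a ⟨ha, ha'⟩
          refine ⟨N.inv_mem ha, ?_⟩
          have : (Additive.ofMul (⟨a⁻¹, N.inv_mem ha⟩ : N)) = -Additive.ofMul ⟨a, ha⟩ := rfl
          rw [this, map_neg, ha', neg_zero] } with hM
    have hMn : M.Normal := by
      refine ⟨?_⟩
      rintro a ⟨ha, ha'⟩ g
      refine ⟨hN.conj_mem a ha g, ?_⟩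
      have h1 : (x : AddMonoid.End (Additive N)) * f g = f g * x := by
        have := mul_comm x (⟨f g, hfR g⟩ : R)
        exact congrArg Subtype.val this
      have h2 : (x : AddMonoid.End (Additive N)) (f g (Additive.ofMul ⟨a, ha⟩)) =
          f g ((x : AddMonoid.End (Additive N)) (Additive.ofMul ⟨a, ha⟩)) :=
        congrArg (fun T : AddMonoid.End (Additive N) => T (Additive.ofMul ⟨a, ha⟩)) h1
      rw [ha', map_zero] at h2
      exact h2
    have hMN : M = N := by
      apply hirr M hMn
      · rintro a ⟨ha, -⟩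
        exact ha
      · refine ⟨z.toMul.1, ⟨z.toMul.2, hz⟩, fun h => hz0 ?_⟩
        have : z.toMul = 1 := Subtype.ext h
        exact this
    apply Subtype.ext
    ext w
    have hw : (w.toMul : G) ∈ M := by rw [hMN]; exact w.toMul.2
    obtain ⟨_, hw'⟩ := hw
    exact congrArg (fun u : Additive N => (u.toMul : G)) hw'
  haveI : NoZeroDivisors R := by
    refine ⟨?_⟩
    intro x y hxy
    by_contra hcon
    push Not at hcon
    obtain ⟨hx, hy⟩ := hcon
    apply hy
    apply Subtype.ext
    ext w
    have h1 : (x : AddMonoid.End (Additive N)) ((y : AddMonoid.End (Additive N)) w) = 0 := by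
      have := congrArg (fun T : R => (T : AddMonoid.End (Additive N)) w) hxy
      exact this
    exact congrArg (fun u : Additive N => (u.toMul : G)) (hinj x hx _ h1)
  haveI : Nontrivial R := by
    refine ⟨1, 0, fun h => ?_⟩
    obtain ⟨z, hz⟩ := exists_ne (0 : Additive N)
    apply hz
    have := congrArg (fun T : R => (T : AddMonoid.End (Additive N)) z) h
    exact this
  haveI : IsDomain R := IsDomain.mk
  set F : E →* R := (f.comp E.subtype).codRestrict R (fun x => hfR _) with hF
  set U : E →* Rˣ := MonoidHom.toHomUnits F with hU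
  haveI : Finite U.range := by
    have : Finite (Set.range U) := Set.finite_range U
    exact this
  obtain ⟨⟨u, ⟨a, rfl⟩⟩, hgen⟩ := (isCyclic_subgroup_units U.range).exists_generator
  refine ⟨a, a.2, fun g hg => ?_⟩
  obtain ⟨k, hk⟩ := Subgroup.mem_zpowers_iff.mp (hgen ⟨U ⟨g, hg⟩, ⟨⟨g, hg⟩, rfl⟩⟩)
  have h1 : U (a ^ (-k) * ⟨g, hg⟩) = 1 := by
    have h2 : U a ^ k = U ⟨g, hg⟩ := congrArg Subtype.val hk
    rw [map_mul, ← h2, map_zpow, zpow_neg, inv_mul_cancel]
  refine ⟨-k, fun z hz => ?_⟩
  have h2 : f ((a : G) ^ (-k) * g) = 1 := by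
    have h3 : (U (a ^ (-k) * ⟨g, hg⟩) : R) = 1 := by rw [h1]; rfl
    have h4 := congrArg Subtype.val h3
    exact h4
  have h3 := congrArg (fun T : AddMonoid.End (Additive N) =>
    ((T (Additive.ofMul ⟨z, hz⟩)).toMul : G)) h2
  have h4 : ((a : G) ^ (-k) * g) * z * ((a : G) ^ (-k) * g)⁻¹ = z := h3
  calc ((a : G) ^ (-k) * g) * z = (((a : G) ^ (-k) * g) * z * ((a : G) ^ (-k) * g)⁻¹) *
        ((a : G) ^ (-k) * g) := by group
    _ = z * ((a : G) ^ (-k) * g) := by rw [h4]

namespace Cfg

variable {ρ : Representation ℂ G V} {σ : Representation ℂ G W} {L : Subgroup G} {r s d : ℕ}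
variable {m : G → ℂ}

lemma exists_gen (c : Cfg ρ σ L r s d) (hs : s = 1) (hm : LC L m) (hP : P σ m ≠ 0)
    (hcard : Nat.card (St m) = Nat.card (Subgroup.centralizer (L : Set G)) * r ^ 2) :
    ∃ a ∈ St m, a ∉ Subgroup.centralizer (L : Set G) ∧
      ∀ g ∈ St m, ∃ k : ℤ, a ^ k * g ∈ Subgroup.centralizer (L : Set G) := by
  obtain ⟨b, hb, hbZ⟩ := c.exists_a hcard
  obtain ⟨a, ha, hgen⟩ := exists_gen_aux (K σ L) c.K_normal
    (fun x hx y hy => c.ab x (K_le_L hx) y (K_le_L hy)) (c.exists_K hm hP hb hbZ)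
    (fun M hM hle ⟨z, hz, hz1⟩ => c.K_irr hs hM hle hz hz1) (by
      intro g h z hz
      set u := (h * g)⁻¹ * (g * h) with hu
      have huL : u ∈ L := by
        have := c.der g⁻¹ h⁻¹
        have e : u = g⁻¹ * h⁻¹ * g⁻¹⁻¹ * h⁻¹⁻¹ := by rw [hu]; group
        rwa [e]
      have h1 : g * h = (h * g) * u := by rw [hu]; group
      have h2 : u * z = z * u := c.ab u huL z (K_le_L hz)
      calc g * h * z * (g * h)⁻¹ = (h * g) * (u * z) * u⁻¹ * (h * g)⁻¹ := by rw [h1]; group
        _ = _ := by rw [h2]; group) (St m)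
  have h1 : ∀ g ∈ St m, ∃ k : ℤ, a ^ k * g ∈ Subgroup.centralizer (L : Set G) := by
    intro g hg
    obtain ⟨k, hk⟩ := hgen g hg
    exact ⟨k, c.fix_all hs hm hP hcard ((St m).mul_mem ((St m).zpow_mem ha k) hg) hk⟩
  refine ⟨a, ha, fun haZ => hbZ ?_, h1⟩
  obtain ⟨k, hk⟩ := h1 b hb
  exact (Subgroup.mul_mem_cancel_left _ (Subgroup.zpow_mem _ haZ k)).mp hk

end Cfg

end Pool.Agent.H515.MB
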