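import Pool.Agent.H515.MB.Cyc

/-!
# The configuration is impossible
-/

set_option autoImplicit false
set_option linter.style.haveILetI false
set_option linter.unusedSectionVars false

open scoped BigOperators Classical
open Pool.Agent.H254R3.IN

noncomputable section

namespace Pool.Agent.H515.MB

variable {G : Type} [Group G] [Fintype G]
variable {V : Type} [AddCommGroup V] [Module ℂ V] [FiniteDimensional ℂ V]
variable {W : Type} [AddCommGroup W] [Module ℂ W] [FiniteDimensional ℂ W]

namespace Cfg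

variable {ρ : Representation ℂ G V} {σ : Representation ℂ G W} {L : Subgroup G} {r s d : ℕ}
variable {m : G → ℂ}

/-- on `L₀` the two characters are proportional with ratio `r` -/
lemma phi_psi (c : Cfg ρ σ L r s d) (hs : s = 1) (hm : LC L m) (hP : P σ m ≠ 0)
    (hcard : Nat.card (St m) = Nat.card (Subgroup.centralizer (L : Set G)) * r ^ 2) {a : G}
    (ha : a ∈ St m) (haZ : a ∉ Subgroup.centralizer (L : Set G)) {y : G} (hy : y ∈ L0 L a) :
    ρ.character y = r * σ.character y := by
  by_contra hne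
  have hK := c.card_K hs hm hP ha haZ
  obtain ⟨z, hz, hz1⟩ := c.exists_K hm hP ha haZ
  have hrc : (r : ℂ) ≠ 0 := by
    have := c.r_gt
    exact_mod_cast (by omega : r ≠ 0)
  have hn : ((r : ℂ) ^ 2 + 1) ≠ 0 := by exact_mod_cast Nat.succ_ne_zero (r ^ 2)
  have hσ : ∀ x ∈ K σ L, σ.character (y * x) = σ.character y := by
    intro x hx
    have : σ (y * x) = σ y := by rw [map_mul, (mem_K.mp hx).2, mul_one]
    exact congrArg (LinearMap.trace ℂ W) this
  have hsemi : ∀ x ∈ K σ L, ρ.character (y * x) = r * σ.character y ∨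
      (r : ℂ) * ρ.character (y * x) = -σ.character y := by
    intro x hx
    have h1 := c.semi (y * x)
    rw [hσ x hx, hs] at h1
    push_cast at h1
    rcases mul_eq_zero.mp h1 with h2 | h2
    · left; linear_combination h2
    · right; linear_combination h2
  have hψ : σ.character y ≠ 0 := by
    intro h0
    apply hne
    have h1 := hsemi 1 (K σ L).one_mem
    rw [mul_one, h0, mul_zero, neg_zero] at h1
    rw [h0, mul_zero]
    rcases h1 with h1 | h1
    · exact h1
    · exact (mul_eq_zero.mp h1).resolve_left hrc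
  set S : Finset G := Finset.univ.filter
    (fun x => x ∈ K σ L ∧ ρ.character (y * x) = r * σ.character y) with hS
  have h1 : ∀ x : G, (r : ℂ) * (if x ∈ K σ L then ρ.character (y * x) else 0) =
      (if x ∈ K σ L then -σ.character y else 0) +
        (if x ∈ S then ((r : ℂ) ^ 2 + 1) * σ.character y else 0) := by
    intro x
    by_cases hx : x ∈ K σ L
    · rw [if_pos hx, if_pos hx]
      by_cases hxS : ρ.character (y * x) = r * σ.character y
      · have : x ∈ S := by rw [hS, Finset.mem_filter]; exact ⟨Finset.mem_univ _, hx, hxS⟩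
        rw [if_pos this, hxS]
        ring
      · have : x ∉ S := by
          rw [hS, Finset.mem_filter]
          rintro ⟨-, -, h⟩
          exact hxS h
        rw [if_neg this, (hsemi x hx).resolve_left hxS, add_zero]
    · have : x ∉ S := by
        rw [hS, Finset.mem_filter]
        rintro ⟨-, h, -⟩
        exact hx h
      rw [if_neg hx, if_neg hx, if_neg this]
      ring
  have h2 : (0 : ℂ) = -(Nat.card (K σ L)) * σ.character y +
      (S.card : ℂ) * (((r : ℂ) ^ 2 + 1) * σ.character y) := by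
    calc (0 : ℂ) = r * ∑ x : G, (if x ∈ K σ L then ρ.character (y * x) else 0) := by
          rw [c.sum_zero c.K_normal hz hz1 y, mul_zero]
      _ = ∑ x : G, ((if x ∈ K σ L then -σ.character y else 0) +
            (if x ∈ S then ((r : ℂ) ^ 2 + 1) * σ.character y else 0)) := by
          rw [Finset.mul_sum]
          exact Finset.sum_congr rfl fun x _ => h1 x
      _ = _ := by
          rw [Finset.sum_add_distrib, Finset.sum_ite, Finset.sum_const_zero, add_zero,
            Finset.sum_const, Finset.sum_ite_mem, Finset.univ_inter, Finset.sum_const]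
          simp only [nsmul_eq_mul]
          rw [Nat.card_eq_fintype_card (α := K σ L), Fintype.card_subtype]
          ring
  have h3 : ((S.card : ℂ) - 1) * (((r : ℂ) ^ 2 + 1) * σ.character y) = 0 := by
    rw [hK] at h2
    push_cast at h2
    linear_combination -h2
  have h4 := (mul_eq_zero.mp h3).resolve_right (mul_ne_zero hn hψ)
  have h5 : S.card = 1 := by
    have : (S.card : ℂ) = 1 := by linear_combination h4
    exact_mod_cast this
  obtain ⟨z0, hz0⟩ := Finset.card_eq_one.mp h5
  have hz0S : z0 ∈ S := by rw [hz0]; exact Finset.mem_singleton_self _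
  rw [hS, Finset.mem_filter] at hz0S
  obtain ⟨-, hz0K, hz0v⟩ := hz0S
  have h6 : a * z0 * a⁻¹ ∈ S := by
    rw [hS, Finset.mem_filter]
    refine ⟨Finset.mem_univ _, c.K_normal.conj_mem z0 hz0K a, ?_⟩
    have e : y * (a * z0 * a⁻¹) = a * (y * z0) * a⁻¹ := by
      have := (mem_L0.mp hy).2
      calc y * (a * z0 * a⁻¹) = (y * a) * z0 * a⁻¹ := by group
        _ = a * (y * z0) * a⁻¹ := by rw [← this]; group
    rw [e, Representation.char_conj, hz0v]
  rw [hz0, Finset.mem_singleton] at h6
  have h7 : a * z0 = z0 * a := by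
    calc a * z0 = (a * z0 * a⁻¹) * a := by group
      _ = z0 * a := by rw [h6]
  have h8 := c.fpf hs hm hP hcard ha haZ hz0K h7
  apply hne
  rw [h8, mul_one] at hz0v
  exact hz0v

/-- restriction of a linear character -/
lemma LC_res {L' : Subgroup G} (hle : L' ≤ L) (hm : LC L m) :
    LC L' (fun x => if x ∈ L' then m x else 0) := by
  refine ⟨by simp [L'.one_mem, hm.one], ?_, ?_⟩
  · intro x hx y hy
    simp only [if_pos hx, if_pos hy, if_pos (L'.mul_mem hx hy)]
    exact hm.mul x (hle hx) y (hle hy)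
  · intro x hx
    simp only [if_neg hx]

/-- a weight of `ρ` that agrees on `L₀` with a given weight of `σ` -/
lemma exists_l (c : Cfg ρ σ L r s d) (hs : s = 1) (hm : LC L m) (hP : P σ m ≠ 0)
    (hcard : Nat.card (St m) = Nat.card (Subgroup.centralizer (L : Set G)) * r ^ 2) {a : G}
    (ha : a ∈ St m) (haZ : a ∉ Subgroup.centralizer (L : Set G)) :
    ∃ l, LC L l ∧ P ρ l ≠ 0 ∧ ∀ y ∈ L0 L a, l y = m y := by
  have hle : L0 L a ≤ L := fun x hx => (mem_L0.mp hx).1
  have h0 := LC_res hle hm
  set m0 : G → ℂ := fun x => if x ∈ L0 L a then m x else 0 with hm0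
  have h1 : P σ m0 ≠ 0 := by
    intro h
    have h2 : P σ m0 * P σ m = (Nat.card (L0 L a) : ℂ) • P σ m := by
      conv_lhs => rw [P]
      rw [Finset.sum_mul, ← ip_self h0, Finset.sum_smul]
      refine Finset.sum_congr rfl fun x _ => ?_
      by_cases hx : x ∈ L0 L a
      · rw [smul_mul_assoc, rho_P σ hm (hle hx), smul_smul]
        simp only [hm0, if_pos hx]
      · rw [h0.inv_off hx, zero_smul, zero_mul, zero_mul, zero_smul]
    rw [h, zero_mul] at h2
    have h3 : (Nat.card (L0 L a) : ℂ) ≠ 0 := by exact_mod_cast Nat.card_pos.ne'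
    exact hP ((smul_eq_zero.mp h2.symm).resolve_left h3)
  have h2 := trace_P_ne σ h0 h1
  have h3 : LinearMap.trace ℂ V (P ρ m0) = r * LinearMap.trace ℂ W (P σ m0) := by
    rw [trace_P, trace_P, Finset.mul_sum]
    refine Finset.sum_congr rfl fun x _ => ?_
    by_cases hx : x ∈ L0 L a
    · rw [c.phi_psi hs hm hP hcard ha haZ hx]
      ring
    · rw [h0.inv_off hx]
      ring
  have hrc : (r : ℂ) ≠ 0 := by
    have := c.r_gt
    exact_mod_cast (by omega : r ≠ 0)
  have h4 : P ρ m0 ≠ 0 := by
    intro h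
    rw [h, map_zero] at h3
    exact mul_ne_zero hrc h2 h3.symm
  obtain ⟨l, hl1, hl2, hl3⟩ := exists_ext ρ hle c.ab h0 h4
  refine ⟨l, hl1, hl2, fun y hy => ?_⟩
  rw [hl3 y hy, hm0]
  simp only [if_pos hy]

/-- the commutator form -/
def be (m : G → ℂ) (x y : G) : ℂ := m (x⁻¹ * y⁻¹ * x * y)

lemma com_mem (c : Cfg ρ σ L r s d) (x y : G) : x⁻¹ * y⁻¹ * x * y ∈ L := by
  have := c.der x⁻¹ y⁻¹
  rwa [inv_inv, inv_inv] at this

lemma be_mul_right (c : Cfg ρ σ L r s d) (hm : LC L m) (x : G) {y z : G} (hz : z ∈ St m) :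
    be m x (y * z) = be m x y * be m x z := by
  unfold be
  have e : x⁻¹ * (y * z)⁻¹ * x * (y * z) =
      (x⁻¹ * z⁻¹ * x * z) * (z⁻¹ * (x⁻¹ * y⁻¹ * x * y) * z⁻¹⁻¹) := by group
  rw [e, hm.mull (c.com_mem x z), (St m).inv_mem hz (x⁻¹ * y⁻¹ * x * y), mul_comm]

lemma be_mul_left (c : Cfg ρ σ L r s d) (hm : LC L m) {x y : G} (hy : y ∈ St m) (z : G) :
    be m (x * y) z = be m x z * be m y z := by
  unfold be
  have e : (x * y)⁻¹ * z⁻¹ * (x * y) * z =
      (y⁻¹ * (x⁻¹ * z⁻¹ * x * z) * y⁻¹⁻¹) * (y⁻¹ * z⁻¹ * y * z) := by group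
  rw [e, hm.mulr _ (c.com_mem y z), (St m).inv_mem hy (x⁻¹ * z⁻¹ * x * z)]

lemma be_self (hm : LC L m) (x : G) (k : ℤ) : be m x (x ^ k) = 1 := by
  unfold be
  have : x⁻¹ * (x ^ k)⁻¹ * x * x ^ k = 1 := by group
  rw [this, hm.one]

lemma be_L (c : Cfg ρ σ L r s d) (hm : LC L m) {x y : G} (hx : x ∈ St m) (hy : y ∈ L) :
    be m x y = 1 := by
  unfold be
  have e : x⁻¹ * y⁻¹ * x * y = (x⁻¹ * y⁻¹ * x⁻¹⁻¹) * y := by group
  rw [e, hm.mulr _ hy, (St m).inv_mem hx y⁻¹, hm.inv_mul hy]

/-- the configuration does not exist -/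
theorem false (c : Cfg ρ σ L r s d) : False := by
  haveI := irr_nontrivial ρ c.irr1
  haveI := irr_nontrivial σ c.irr2
  obtain ⟨m, hm, hP⟩ := exists_wt σ c.ab
  obtain ⟨l', hl', hPl'⟩ := exists_wt ρ c.ab
  obtain ⟨hs, hcard⟩ := c.num hl' hPl' hm hP
  obtain ⟨a, ha, haZ, hgen⟩ := c.exists_gen hs hm hP hcard
  obtain ⟨l, hl, hPl, hlm⟩ := c.exists_l hs hm hP hcard ha haZ
  set Z := Subgroup.centralizer (L : Set G) with hZ
  have hZE : Z ≤ St m := c.cent_le_St hm
  have hLZ : L ≤ Z := c.L_le_cent
  -- nondegeneracy on `Z`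
  have ndZ : ∀ y ∈ Z, (∀ b ∈ Z, be m b y = 1) → y ∈ L := by
    intro y hy hb
    apply nondeg ρ c.irr1 c.normal c.der c.off1 hl hPl y
    intro g hg
    rw [c.St_eq hl hPl] at hg
    have h1 : l (g⁻¹ * y⁻¹ * g * y) = 1 := by
      rw [hlm _ (c.D_comm a hg hy)]
      exact hb g hg
    have h2 : y⁻¹ * g⁻¹ * y * g = (g⁻¹ * y⁻¹ * g * y)⁻¹ := by group
    rw [h2, hl.inv_eq (c.com_mem g y), h1, inv_one]
  -- sums over `Z` in the first variable
  have s1 : ∀ y ∈ Z, ∑ b : G, (if b ∈ Z then be m b y else 0) =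
      if y ∈ L then (Nat.card Z : ℂ) else 0 := by
    intro y hy
    split_ifs with hyL
    · rw [Nat.card_eq_fintype_card (α := Z), Fintype.card_subtype, Finset.card_eq_sum_ones,
        Nat.cast_sum, Finset.sum_filter]
      refine Finset.sum_congr rfl fun b _ => ?_
      split_ifs with hb
      · rw [c.be_L hm (hZE hb) hyL, Nat.cast_one]
      · rfl
    · obtain ⟨b0, hb0, hne⟩ : ∃ b ∈ Z, be m b y ≠ 1 := by
        by_contra hcon
        push Not at hcon
        exact hyL (ndZ y hy hcon)
      have h1 : ∑ b : G, (if b ∈ Z then be m b y else 0) =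
          be m b0 y * ∑ b : G, (if b ∈ Z then be m b y else 0) := by
        conv_lhs => rw [← Equiv.sum_comp (Equiv.mulRight b0)]
        rw [Finset.mul_sum]
        refine Finset.sum_congr rfl fun b _ => ?_
        simp only [Equiv.coe_mulRight, Subgroup.mul_mem_cancel_right Z hb0]
        split_ifs with hb
        · rw [c.be_mul_left hm (hZE hb0), mul_comm]
        · rw [mul_zero]
      have h2 : (be m b0 y - 1) * ∑ b : G, (if b ∈ Z then be m b y else 0) = 0 := by
        rw [sub_mul, one_mul, ← h1, sub_self]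
      rcases mul_eq_zero.mp h2 with h3 | h3
      · exact absurd (by linear_combination h3) hne
      · exact h3
  -- the double sum
  have s2 : ∑ b : G, (if b ∈ Z then ∑ y : G, (if y ∈ Z then be m (a * b) y else 0) else 0) =
      (Nat.card L : ℂ) * Nat.card Z := by
    have h1 : ∀ b : G, (if b ∈ Z then ∑ y : G, (if y ∈ Z then be m (a * b) y else 0) else 0) =
        ∑ y : G, (if y ∈ Z then be m a y * (if b ∈ Z then be m b y else 0) else 0) := by
      intro b
      by_cases hb : b ∈ Z
      · rw [if_pos hb]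
        refine Finset.sum_congr rfl fun y _ => ?_
        split_ifs
        · rw [c.be_mul_left hm (hZE hb)]
        · rfl
      · rw [if_neg hb]
        symm
        apply Finset.sum_eq_zero
        intro y _
        split_ifs
        · rw [mul_zero]
        · rfl
    rw [Finset.sum_congr rfl fun b _ => h1 b, Finset.sum_comm]
    have h2 : ∀ y : G, ∑ b : G, (if y ∈ Z then be m a y * (if b ∈ Z then be m b y else 0) else 0) =
        if y ∈ L then (Nat.card Z : ℂ) else 0 := by
      intro y
      by_cases hy : y ∈ Z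
      · simp only [if_pos hy]
        rw [← Finset.mul_sum, s1 y hy]
        split_ifs with hyL
        · rw [c.be_L hm ha hyL, one_mul]
        · rw [mul_zero]
      · have hyL : y ∉ L := fun h => hy (hLZ h)
        simp only [if_neg hy, if_neg hyL, Finset.sum_const_zero]
    rw [Finset.sum_congr rfl fun y _ => h2 y, Finset.sum_ite, Finset.sum_const_zero, add_zero,
      Finset.sum_const, nsmul_eq_mul, Nat.card_eq_fintype_card (α := L), Fintype.card_subtype]
  -- a good representative
  obtain ⟨b, hb, hbs⟩ : ∃ b ∈ Z, ∑ y : G, (if y ∈ Z then be m (a * b) y else 0) ≠ 0 := by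
    by_contra hcon
    push Not at hcon
    have h1 : ∑ b : G, (if b ∈ Z then ∑ y : G, (if y ∈ Z then be m (a * b) y else 0) else 0) =
        0 := by
      apply Finset.sum_eq_zero
      intro b _
      split_ifs with hb
      · exact hcon b hb
      · rfl
    rw [s2] at h1
    have h2 : (Nat.card L : ℂ) ≠ 0 := by exact_mod_cast Nat.card_pos.ne'
    have h3 : (Nat.card Z : ℂ) ≠ 0 := by exact_mod_cast Nat.card_pos.ne'
    exact mul_ne_zero h2 h3 h1
  have hE : a * b ∈ St m := (St m).mul_mem ha (hZE hb)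
  have hbe : ∀ y ∈ Z, be m (a * b) y = 1 := by
    intro y0 hy0
    by_contra hne
    apply hbs
    have h1 : ∑ y : G, (if y ∈ Z then be m (a * b) y else 0) =
        be m (a * b) y0 * ∑ y : G, (if y ∈ Z then be m (a * b) y else 0) := by
      conv_lhs => rw [← Equiv.sum_comp (Equiv.mulRight y0)]
      rw [Finset.mul_sum]
      refine Finset.sum_congr rfl fun y _ => ?_
      simp only [Equiv.coe_mulRight, Subgroup.mul_mem_cancel_right Z hy0]
      split_ifs with hy
      · rw [c.be_mul_right hm _ (hZE hy0), mul_comm]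
      · rw [mul_zero]
    have h2 : (be m (a * b) y0 - 1) * ∑ y : G, (if y ∈ Z then be m (a * b) y else 0) = 0 := by
      rw [sub_mul, one_mul, ← h1, sub_self]
    rcases mul_eq_zero.mp h2 with h3 | h3
    · exact absurd (by linear_combination h3) hne
    · exact h3
  -- `a b` generates modulo `Z`
  have hab : a * b ∈ L := by
    apply nondeg σ c.irr2 c.normal c.der c.off2 hm hP (a * b)
    intro g hg
    obtain ⟨k, hk⟩ := hgen g hg
    haveI := c.normal
    have hk' : (a * b) ^ k * g ∈ Z := by
      have h1 : ((a * b) ^ k * g : G) = ((a * b) ^ k * (a ^ k)⁻¹) * (a ^ k * g) := by group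
      have h2 : (a * b) ^ k * (a ^ k)⁻¹ ∈ Z := by
        have h3 : ((a * b : G) : G ⧸ Z) = (a : G ⧸ Z) := by
          rw [QuotientGroup.mk_mul, (QuotientGroup.eq_one_iff b).mpr hb, mul_one]
        rw [← QuotientGroup.eq_one_iff, QuotientGroup.mk_mul, QuotientGroup.mk_inv,
          QuotientGroup.mk_zpow, QuotientGroup.mk_zpow, h3, mul_inv_cancel]
      rw [h1]
      exact Z.mul_mem h2 hk
    have hg2 : g = (a * b) ^ (-k) * ((a * b) ^ k * g) := by group
    have h3 : be m (a * b) g = 1 := by
      rw [hg2, c.be_mul_right hm _ (hZE hk'), be_self hm, hbe _ hk', mul_one]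
    exact h3
  apply haZ
  have h1 : a = (a * b) * b⁻¹ := by group
  rw [h1]
  exact Z.mul_mem (hLZ hab) (Z.inv_mem hb)

end Cfg

end Pool.Agent.H515.MB
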