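import Mathlib

/-!
# Operators of finite order: trace and eigenvalues
-/

set_option autoImplicit false
set_option linter.unusedSectionVars false

open scoped BigOperators

namespace Pool.Agent.H515.MB

variable {V : Type} [AddCommGroup V] [Module ℂ V] [FiniteDimensional ℂ V]

theorem unit_norm (A : Module.End ℂ V) {m : ℕ} (hm : 0 < m)
    (hA : A ^ m = 1) {l : ℂ} (hl : A.HasEigenvalue l) : ‖l‖ = 1 := by
  obtain ⟨v, hv⟩ := hl.exists_hasEigenvector
  have h1 := hv.pow_apply m
  rw [hA, Module.End.one_apply] at h1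
  have h2 : (l ^ m - 1) • v = 0 := by rw [sub_smul, one_smul, ← h1, sub_self]
  rcases smul_eq_zero.1 h2 with h3 | h3
  · have h4 : l ^ m = 1 := by linear_combination h3
    have h5 : ‖l‖ ^ m = 1 := by rw [← norm_pow, h4, norm_one]
    exact (pow_eq_one_iff_of_nonneg (norm_nonneg _) hm.ne').1 h5
  · exact absurd h3 hv.2

theorem exists_eigs (A : Module.End ℂ V) {m : ℕ} (hm : 0 < m) (hA : A ^ m = 1) :
    ∃ s : Multiset ℂ, s.card = Module.finrank ℂ V ∧ (∀ l ∈ s, ‖l‖ = 1) ∧
      (∀ l, A.HasEigenvalue l → l ∈ s) ∧ LinearMap.trace ℂ _ A = s.sum := by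
  have hsp : (LinearMap.charpoly A).Splits := IsAlgClosed.splits _
  have hcard : (LinearMap.charpoly A).roots.card = Module.finrank ℂ V := by
    rw [← hsp.natDegree_eq_card_roots, LinearMap.charpoly_natDegree]
  refine ⟨(LinearMap.charpoly A).roots, hcard, fun l hl => ?_, fun l hl => ?_, ?_⟩
  · refine unit_norm A hm hA ?_
    rw [Module.End.hasEigenvalue_iff_isRoot_charpoly]
    exact (Polynomial.mem_roots'.1 hl).2
  · rw [Module.End.hasEigenvalue_iff_isRoot_charpoly] at hl
    exact Polynomial.mem_roots'.2 ⟨(LinearMap.charpoly_monic A).ne_zero, hl⟩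
  · exact Module.End.trace_eq_sum_roots_charpoly_of_splits hsp

lemma norm_sum_le (s : Multiset ℂ) (h : ∀ l ∈ s, ‖l‖ = 1) : ‖s.sum‖ ≤ s.card := by
  induction s using Multiset.induction_on with
  | empty => simp
  | cons a s ih =>
    rw [Multiset.sum_cons, Multiset.card_cons]
    have h1 := h a (Multiset.mem_cons_self a s)
    have h2 := ih fun l hl => h l (Multiset.mem_cons_of_mem hl)
    have h3 := norm_add_le a s.sum
    push_cast
    linarith

lemma eq_one_of_sum (s : Multiset ℂ) (h : ∀ l ∈ s, ‖l‖ = 1) (hs : s.sum = s.card) :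
    ∀ l ∈ s, l = 1 := by
  intro l hl
  obtain ⟨u, rfl⟩ := Multiset.exists_cons_of_mem hl
  rw [Multiset.sum_cons, Multiset.card_cons] at hs
  have h1 := norm_sum_le u fun x hx => h x (Multiset.mem_cons_of_mem hx)
  have h2 := Complex.re_le_norm u.sum
  have h3 : l.re + u.sum.re = u.card + 1 := by
    have := congrArg Complex.re hs
    simpa using this
  have h4 : 1 ≤ l.re := by linarith
  have h5 := h l hl
  have h6 : l.re ^ 2 + l.im ^ 2 = 1 := by
    have := Complex.sq_norm l
    rw [h5, Complex.normSq_apply] at this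
    nlinarith
  have h7 : l.im = 0 := by nlinarith
  have h8 : l.re = 1 := by
    have h9 := Complex.re_le_norm l
    linarith
  exact Complex.ext (by simp [h8]) (by simp [h7])

theorem norm_trace_le (A : Module.End ℂ V) {m : ℕ} (hm : 0 < m) (hA : A ^ m = 1) :
    ‖LinearMap.trace ℂ _ A‖ ≤ Module.finrank ℂ V := by
  obtain ⟨s, h1, h2, -, h4⟩ := exists_eigs A hm hA
  rw [h4, ← h1]
  exact norm_sum_le s h2

theorem eq_one_of_trace (A : Module.End ℂ V) {m : ℕ} (hm : 0 < m) (hA : A ^ m = 1)
    (h : LinearMap.trace ℂ _ A = Module.finrank ℂ V) : A = 1 := by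
  obtain ⟨s, h1, h2, h3, h4⟩ := exists_eigs A hm hA
  have h5 := eq_one_of_sum s h2 (by rw [← h4, h, h1])
  have hss : A.IsSemisimple := by
    apply Module.End.isSemisimple_of_squarefree_aeval_eq_zero
      (p := (Polynomial.X ^ m - Polynomial.C 1 : Polynomial ℂ))
    · exact (Polynomial.separable_X_pow_sub_C (1 : ℂ) (by exact_mod_cast hm.ne')
        one_ne_zero).squarefree
    · simp [hA]
  have htop := Module.End.iSup_maxGenEigenspace_eq_top A
  have h6 : ∀ μ : ℂ, A.maxGenEigenspace μ ≤ A.eigenspace 1 := by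
    intro μ
    rw [hss.isFinitelySemisimple.maxGenEigenspace_eq_eigenspace]
    by_cases hμ : A.HasEigenvalue μ
    · rw [h5 μ (h3 μ hμ)]
    · have : A.eigenspace μ = ⊥ := by
        by_contra hne
        exact hμ hne
      rw [this]
      exact bot_le
  have h7 : A.eigenspace 1 = ⊤ := by
    rw [eq_top_iff, ← htop]
    exact iSup_le h6
  ext v
  have h8 : v ∈ A.eigenspace 1 := by rw [h7]; trivial
  rw [Module.End.mem_eigenspace_iff] at h8
  rw [h8, one_smul, Module.End.one_apply]

end Pool.Agent.H515.MB
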