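import Pool.Agent.H254R3.IN.PI
import Pool.Agent.Helper493.Clifford
import Pool.Agent.H515.MB.Op

/-!
# Linear characters of a subgroup (extended by zero) and the projections they define
-/

set_option autoImplicit false
set_option linter.style.haveILetI false
set_option linter.unusedSectionVars false

open scoped BigOperators Classical
open Pool.Agent.H254R3.IN

noncomputable section

namespace Pool.Agent.H515.MB

variable {G : Type} [Group G] [Fintype G]

/-- a linear character of `L`, extended by zero to `G` -/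
structure LC (L : Subgroup G) (l : G → ℂ) : Prop where
  one : l 1 = 1
  mul : ∀ x ∈ L, ∀ y ∈ L, l (x * y) = l x * l y
  off : ∀ x ∉ L, l x = 0

namespace LC

variable {L : Subgroup G} {l m : G → ℂ}

lemma mulr (h : LC L l) (x : G) {y : G} (hy : y ∈ L) : l (x * y) = l x * l y := by
  by_cases hx : x ∈ L
  · exact h.mul x hx y hy
  · have : x * y ∉ L := fun h' => hx ((L.mul_mem_cancel_right hy).mp h')
    rw [h.off _ this, h.off _ hx, zero_mul]

lemma mull (h : LC L l) {x : G} (hx : x ∈ L) (y : G) : l (x * y) = l x * l y := by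
  by_cases hy : y ∈ L
  · exact h.mul x hx y hy
  · have : x * y ∉ L := fun h' => hy ((L.mul_mem_cancel_left hx).mp h')
    rw [h.off _ this, h.off _ hy, mul_zero]

lemma inv_mul (h : LC L l) {x : G} (hx : x ∈ L) : l x⁻¹ * l x = 1 := by
  rw [← h.mul _ (L.inv_mem hx) _ hx, inv_mul_cancel, h.one]

lemma mul_inv (h : LC L l) {x : G} (hx : x ∈ L) : l x * l x⁻¹ = 1 := by
  rw [← h.mul _ hx _ (L.inv_mem hx), mul_inv_cancel, h.one]

lemma ne_zero (h : LC L l) {x : G} (hx : x ∈ L) : l x ≠ 0 := by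
  intro h0
  have := h.inv_mul hx
  rw [h0, mul_zero] at this
  exact zero_ne_one this

lemma inv_eq (h : LC L l) {x : G} (hx : x ∈ L) : l x⁻¹ = (l x)⁻¹ :=
  eq_inv_of_mul_eq_one_left (h.inv_mul hx)

lemma inv_off (h : LC L l) {x : G} (hx : x ∉ L) : l x⁻¹ = 0 :=
  h.off _ fun h' => hx (L.inv_mem_iff.mp h')

end LC

/-- the conjugate of a function -/
def cj (g : G) (l : G → ℂ) (x : G) : ℂ := l (g * x * g⁻¹)

lemma LC.cj {L : Subgroup G} (hL : L.Normal) {l : G → ℂ} (h : LC L l) (g : G) : LC L (cj g l) := by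
  refine ⟨?_, ?_, ?_⟩
  · unfold MB.cj
    rw [mul_one, mul_inv_cancel, h.one]
  · intro x hx y hy
    unfold MB.cj
    rw [← h.mul _ (hL.conj_mem x hx g) _ (hL.conj_mem y hy g)]
    congr 1
    group
  · intro x hx
    unfold MB.cj
    apply h.off
    intro h'
    apply hx
    have := hL.conj_mem _ h' g⁻¹
    have e : g⁻¹ * (g * x * g⁻¹) * g⁻¹⁻¹ = x := by group
    rwa [e] at this

/-- the stabilizer of a function under conjugation -/
def St (l : G → ℂ) : Subgroup G where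
  carrier := {g | ∀ x, l (g * x * g⁻¹) = l x}
  one_mem' := fun x => by simp
  mul_mem' := by
    intro a b ha hb x
    have e : a * b * x * (a * b)⁻¹ = a * (b * x * b⁻¹) * a⁻¹ := by group
    rw [e, ha, hb]
  inv_mem' := by
    intro a ha x
    have := ha (a⁻¹ * x * a⁻¹⁻¹)
    rw [← this]
    congr 1
    group

lemma mem_St {l : G → ℂ} {g : G} : g ∈ St l ↔ ∀ x, l (g * x * g⁻¹) = l x := Iff.rfl

lemma cj_eq_iff {l : G → ℂ} {g : G} : cj g l = l ↔ g ∈ St l :=
  ⟨fun h x => congrFun h x, fun h => funext h⟩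

/-- inner product -/
lemma ip_self {L : Subgroup G} {l : G → ℂ} (h : LC L l) :
    ∑ x, l x⁻¹ * l x = Nat.card L := by
  have h1 : ∀ x : G, l x⁻¹ * l x = if x ∈ L then 1 else 0 := by
    intro x
    split_ifs with hx
    · exact h.inv_mul hx
    · rw [h.off _ hx, mul_zero]
  rw [Finset.sum_congr rfl fun x _ => h1 x, Finset.sum_ite, Finset.sum_const_zero, add_zero,
    Finset.sum_const, nsmul_eq_mul, mul_one, Nat.card_eq_fintype_card, Fintype.card_subtype]

lemma ip_ne {L : Subgroup G} {l m : G → ℂ} (h : LC L l) (h' : LC L m) (hne : l ≠ m) :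
    ∑ x, l x⁻¹ * m x = 0 := by
  obtain ⟨y, hy⟩ : ∃ y, l y ≠ m y := by
    by_contra hcon
    push Not at hcon
    exact hne (funext hcon)
  have hyL : y ∈ L := by
    by_contra hyL
    exact hy (by rw [h.off _ hyL, h'.off _ hyL])
  have e1 : ∑ x, l x⁻¹ * m x = ∑ x, l (x * y)⁻¹ * m (x * y) :=
    (Equiv.sum_comp (Equiv.mulRight y) fun x => l x⁻¹ * m x).symm
  have e2 : ∑ x, l (x * y)⁻¹ * m (x * y) = (l y⁻¹ * m y) * ∑ x, l x⁻¹ * m x := by
    rw [Finset.mul_sum]
    refine Finset.sum_congr rfl fun x _ => ?_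
    rw [mul_inv_rev, h.mull (L.inv_mem hyL), h'.mulr _ hyL]
    ring
  have e3 : (l y⁻¹ * m y - 1) * ∑ x, l x⁻¹ * m x = 0 := by
    rw [sub_mul, one_mul, ← e2, ← e1, sub_self]
  rcases mul_eq_zero.mp e3 with h0 | h0
  · exfalso
    apply hy
    have h1 := h.mul_inv hyL
    have h2 : l y⁻¹ * m y = 1 := by linear_combination h0
    linear_combination (m y) * h1 - l y * h2
  · exact h0

section rep

variable {V : Type} [AddCommGroup V] [Module ℂ V] [FiniteDimensional ℂ V]

/-- the (unnormalised) projection attached to a function -/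
def P (ρ : Representation ℂ G V) (l : G → ℂ) : Module.End ℂ V := ∑ x : G, l x⁻¹ • ρ x

variable (ρ : Representation ℂ G V)

lemma rho_P {L : Subgroup G} {l : G → ℂ} (h : LC L l) {y : G} (hy : y ∈ L) :
    ρ y * P ρ l = l y • P ρ l := by
  unfold P
  rw [Finset.mul_sum, Finset.smul_sum]
  have e1 : ∑ x, l y • l x⁻¹ • ρ x = ∑ x, l y • l (y * x)⁻¹ • ρ (y * x) :=
    (Equiv.sum_comp (Equiv.mulLeft y) fun x => l y • l x⁻¹ • ρ x).symm
  rw [e1]
  refine Finset.sum_congr rfl fun x _ => ?_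
  rw [mul_smul_comm, ← map_mul, smul_smul]
  congr 1
  rw [mul_inv_rev, h.mulr _ (L.inv_mem hy)]
  have := h.mul_inv hy
  linear_combination (-(l x⁻¹)) * this

lemma P_rho {L : Subgroup G} {l : G → ℂ} (h : LC L l) {y : G} (hy : y ∈ L) :
    P ρ l * ρ y = l y • P ρ l := by
  unfold P
  rw [Finset.sum_mul, Finset.smul_sum]
  have e1 : ∑ x, l y • l x⁻¹ • ρ x = ∑ x, l y • l (x * y)⁻¹ • ρ (x * y) :=
    (Equiv.sum_comp (Equiv.mulRight y) fun x => l y • l x⁻¹ • ρ x).symm
  rw [e1]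
  refine Finset.sum_congr rfl fun x _ => ?_
  rw [smul_mul_assoc, ← map_mul, smul_smul]
  congr 1
  rw [mul_inv_rev, h.mull (L.inv_mem hy)]
  have := h.mul_inv hy
  linear_combination (-(l x⁻¹)) * this

lemma P_mul_P {L : Subgroup G} {l m : G → ℂ} (h : LC L l) (h' : LC L m) :
    P ρ l * P ρ m = (∑ x, l x⁻¹ * m x) • P ρ m := by
  conv_lhs => rw [P]
  rw [Finset.sum_mul, Finset.sum_smul]
  refine Finset.sum_congr rfl fun x _ => ?_
  by_cases hx : x ∈ L
  · rw [smul_mul_assoc, rho_P ρ h' hx, smul_smul]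
  · rw [h.inv_off hx, zero_smul, zero_mul, zero_mul, zero_smul]

lemma P_sq {L : Subgroup G} {l : G → ℂ} (h : LC L l) :
    P ρ l * P ρ l = (Nat.card L : ℂ) • P ρ l := by
  rw [P_mul_P ρ h h, ip_self h]

lemma P_mul_ne {L : Subgroup G} {l m : G → ℂ} (h : LC L l) (h' : LC L m) (hne : l ≠ m) :
    P ρ l * P ρ m = 0 := by
  rw [P_mul_P ρ h h', ip_ne h h' hne, zero_smul]

lemma P_cj (l : G → ℂ) (g : G) : ρ g⁻¹ * P ρ l * ρ g = P ρ (cj g l) := by
  unfold P
  rw [Finset.mul_sum, Finset.sum_mul]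
  have e1 : ∑ x, cj g l x⁻¹ • ρ x = ∑ x, cj g l (g⁻¹ * x * g⁻¹⁻¹)⁻¹ • ρ (g⁻¹ * x * g⁻¹⁻¹) :=
    (Equiv.sum_comp (MulAut.conj g⁻¹).toEquiv fun x => cj g l x⁻¹ • ρ x).symm
  rw [e1]
  refine Finset.sum_congr rfl fun x _ => ?_
  rw [mul_smul_comm, smul_mul_assoc, ← map_mul, ← map_mul, inv_inv]
  congr 1
  unfold cj
  congr 1
  group

lemma trace_P (l : G → ℂ) : LinearMap.trace ℂ V (P ρ l) = ∑ x, l x⁻¹ * ρ.character x := by
  unfold P
  rw [map_sum]
  refine Finset.sum_congr rfl fun x _ => ?_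
  rw [map_smul, smul_eq_mul]
  rfl

lemma trace_mul_P (l : G → ℂ) (g : G) :
    LinearMap.trace ℂ V (ρ g * P ρ l) = ∑ x, l x⁻¹ * ρ.character (g * x) := by
  unfold P
  rw [Finset.mul_sum, map_sum]
  refine Finset.sum_congr rfl fun x _ => ?_
  rw [mul_smul_comm, map_smul, smul_eq_mul, ← map_mul]
  rfl

/-- a nonzero projection has nonzero trace -/
lemma trace_P_ne {L : Subgroup G} {l : G → ℂ} (h : LC L l) (hP : P ρ l ≠ 0) :
    LinearMap.trace ℂ V (P ρ l) ≠ 0 := by
  have hc : (Nat.card L : ℂ) ≠ 0 := by exact_mod_cast Nat.card_pos.ne'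
  set e : Module.End ℂ V := (Nat.card L : ℂ)⁻¹ • P ρ l with he
  have hid : IsIdempotentElem e := by
    unfold IsIdempotentElem
    rw [he, smul_mul_smul_comm, P_sq ρ h, smul_smul]
    congr 1
    field_simp
  have he0 : e ≠ 0 := by
    intro h0
    apply hP
    have : (Nat.card L : ℂ) • e = P ρ l := by
      rw [he, smul_smul, mul_inv_cancel₀ hc, one_smul]
    rw [← this, h0, smul_zero]
  have h1 : LinearMap.trace ℂ V e = (Module.finrank ℂ (LinearMap.range e) : ℂ) := by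
    exact (LinearMap.IsIdempotentElem.isProj_range e hid).trace
  have h2 : LinearMap.range e ≠ ⊥ := fun h' => he0 (LinearMap.range_eq_bot.mp h')
  have h3 : 0 < Module.finrank ℂ (LinearMap.range e) := by
    haveI : Nontrivial (LinearMap.range e) := Submodule.nontrivial_iff_ne_bot.mpr h2
    exact Module.finrank_pos
  intro h0
  have h4 : LinearMap.trace ℂ V e = 0 := by
    rw [he, map_smul, h0, smul_zero]
  rw [h4] at h1
  exact h3.ne' (by exact_mod_cast h1.symm)

/-- averaging over the group -/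
def av (T : Module.End ℂ V) : Module.End ℂ V := ∑ g : G, ρ g⁻¹ * T * ρ g

lemma av_comm (T : Module.End ℂ V) (h : G) : av ρ T * ρ h = ρ h * av ρ T := by
  unfold av
  rw [Finset.sum_mul, Finset.mul_sum]
  have e1 : ∑ g, ρ h * (ρ g⁻¹ * T * ρ g) = ∑ g, ρ h * (ρ (g * h)⁻¹ * T * ρ (g * h)) :=
    (Equiv.sum_comp (Equiv.mulRight h) fun g => ρ h * (ρ g⁻¹ * T * ρ g)).symm
  rw [e1]
  refine Finset.sum_congr rfl fun g _ => ?_
  have : ρ h * ρ (g * h)⁻¹ = ρ g⁻¹ := by
    rw [← map_mul]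
    congr 1
    group
  rw [mul_assoc (ρ g⁻¹ * T), ← map_mul, ← mul_assoc, ← mul_assoc, this]

lemma av_scalar (hr : ρ.IsIrreducible) (T : Module.End ℂ V) :
    ∃ c : ℂ, av ρ T = c • (1 : Module.End ℂ V) ∧
      c * Module.finrank ℂ V = Nat.card G * LinearMap.trace ℂ V T := by
  obtain ⟨c, hc⟩ := schur ρ hr (av ρ T) (fun h v => by
    have := congrArg (fun S : Module.End ℂ V => S v) (av_comm ρ T h)
    exact this)
  refine ⟨c, hc, ?_⟩
  have h1 : LinearMap.trace ℂ V (av ρ T) = Nat.card G * LinearMap.trace ℂ V T := by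
    unfold av
    rw [map_sum]
    have : ∀ g : G, LinearMap.trace ℂ V (ρ g⁻¹ * T * ρ g) = LinearMap.trace ℂ V T := by
      intro g
      rw [LinearMap.trace_mul_comm, ← mul_assoc, ← map_mul, mul_inv_cancel, map_one, one_mul]
    rw [Finset.sum_congr rfl fun g _ => this g, Finset.sum_const, nsmul_eq_mul,
      Finset.card_univ, Nat.card_eq_fintype_card]
  rw [← h1, hc, map_smul, smul_eq_mul]
  congr 1
  exact (LinearMap.trace_id ℂ V).symm

/-- the average of a projection: the value of the scalar -/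
lemma av_P {L : Subgroup G} (hL : L.Normal) (hr : ρ.IsIrreducible) {l : G → ℂ} (h : LC L l)
    (hP : P ρ l ≠ 0) :
    av ρ (P ρ l) = ((Nat.card (St l) : ℂ) * Nat.card L) • (1 : Module.End ℂ V) ∧
      ((Nat.card (St l) : ℂ) * Nat.card L) * Module.finrank ℂ V =
        Nat.card G * LinearMap.trace ℂ V (P ρ l) := by
  obtain ⟨c, hc, hc'⟩ := av_scalar ρ hr (P ρ l)
  have h1 : av ρ (P ρ l) * P ρ l = ((Nat.card (St l) : ℂ) * Nat.card L) • P ρ l := by
    unfold av
    rw [Finset.sum_mul]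
    have e1 : ∀ g : G, ρ g⁻¹ * P ρ l * ρ g * P ρ l =
        if g ∈ St l then (Nat.card L : ℂ) • P ρ l else 0 := by
      intro g
      rw [P_cj]
      split_ifs with hg
      · rw [cj_eq_iff.mpr hg, P_sq ρ h]
      · exact P_mul_ne ρ (h.cj hL g) h (fun h' => hg (cj_eq_iff.mp h'))
    rw [Finset.sum_congr rfl fun g _ => e1 g, Finset.sum_ite, Finset.sum_const_zero, add_zero,
      Finset.sum_const, ← smul_assoc]
    congr 1
    rw [nsmul_eq_mul, Nat.card_eq_fintype_card (α := St l), Fintype.card_subtype]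
  have h2 : (c - (Nat.card (St l) : ℂ) * Nat.card L) • P ρ l = 0 := by
    rw [sub_smul, ← h1, hc, smul_mul_assoc, one_mul, sub_self]
  have h3 : c = (Nat.card (St l) : ℂ) * Nat.card L := by
    rcases smul_eq_zero.mp h2 with h' | h'
    · linear_combination h'
    · exact absurd h' hP
  rw [← h3]
  exact ⟨hc, hc'⟩

/-- an element of `L` in the kernel of all conjugates of `l` acts trivially -/
lemma rho_eq_one {L : Subgroup G} (hL : L.Normal) (hr : ρ.IsIrreducible) {l : G → ℂ} (h : LC L l)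
    (hP : P ρ l ≠ 0) {y : G} (hy : y ∈ L) (hk : ∀ g : G, l (g * y * g⁻¹) = 1) : ρ y = 1 := by
  obtain ⟨h1, -⟩ := av_P ρ hL hr h hP
  have hc : ((Nat.card (St l) : ℂ) * Nat.card L) ≠ 0 := by
    have h2 : (Nat.card (St l) : ℂ) ≠ 0 := by exact_mod_cast Nat.card_pos.ne'
    have h3 : (Nat.card L : ℂ) ≠ 0 := by exact_mod_cast Nat.card_pos.ne'
    exact mul_ne_zero h2 h3
  have h2 : ρ y * av ρ (P ρ l) = av ρ (P ρ l) := by
    unfold av
    rw [Finset.mul_sum]
    refine Finset.sum_congr rfl fun g _ => ?_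
    rw [P_cj, rho_P ρ (h.cj hL g) hy]
    unfold cj
    rw [hk g, one_smul]
  rw [h1, mul_smul_comm, mul_one] at h2
  have h3 : ((Nat.card (St l) : ℂ) * Nat.card L) • (ρ y - 1) = 0 := by
    rw [smul_sub, h2, sub_self]
  have h4 := (smul_eq_zero.mp h3).resolve_left hc
  exact sub_eq_zero.mp h4

end rep

end Pool.Agent.H515.MB
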