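import Pool.Agent.H515.MB.End
import Pool.Agent.H515.SP.Final

/-!
# Semiproportional irreducible characters over an abelian derived subgroup
-/

set_option autoImplicit false
set_option linter.style.haveILetI false
set_option linter.unusedSectionVars false

open scoped BigOperators Classical
open Pool.Agent.H254R3.IN

noncomputable section

namespace Pool.Agent.H515.MB

variable {G : Type} [Group G] [Fintype G]
variable {V : Type} [AddCommGroup V] [Module ℂ V] [FiniteDimensional ℂ V]
variable {W : Type} [AddCommGroup W] [Module ℂ W] [FiniteDimensional ℂ W]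

/-- irreducibility only depends on the operators -/
lemma irr_of_lift {Q : Type} [Group Q] (ρ : Representation ℂ G V) (hρ : ρ.IsIrreducible)
    (ρ' : Representation ℂ Q V) (π : G → Q) (h : ∀ g, ρ' (π g) = ρ g) : ρ'.IsIrreducible := by
  have hnt := irr_nontrivial ρ hρ
  haveI : Nontrivial (Subrepresentation ρ') := by
    refine ⟨⊥, ⊤, ?_⟩
    intro h
    obtain ⟨v, hv⟩ := exists_ne (0 : V)
    have h1 : (⊥ : Submodule ℂ V) = ⊤ := congrArg Subrepresentation.toSubmodule h
    have h2 : v ∈ (⊥ : Submodule ℂ V) := by rw [h1]; trivial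
    exact hv ((Submodule.mem_bot ℂ).mp h2)
  refine ⟨fun S => ?_⟩
  let S' : Subrepresentation ρ := ⟨S.toSubmodule, fun g v hv => by
    rw [← h]
    exact S.apply_mem_toSubmodule _ hv⟩
  haveI : IsSimpleOrder (Subrepresentation ρ) := hρ
  rcases IsSimpleOrder.eq_bot_or_eq_top S' with h1 | h1
  · left
    apply Subrepresentation.toSubmodule_injective
    have h2 : S'.toSubmodule = (⊥ : Subrepresentation ρ).toSubmodule := by rw [h1]
    exact h2
  · right
    apply Subrepresentation.toSubmodule_injective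
    have h2 : S'.toSubmodule = (⊤ : Subrepresentation ρ).toSubmodule := by rw [h1]
    exact h2

lemma adjoin_comm {A : Type} [Ring A] [Algebra ℂ A] {S : Set A}
    (hS : ∀ x ∈ S, ∀ y ∈ S, x * y = y * x) {x y : A} (hx : x ∈ Algebra.adjoin ℂ S)
    (hy : y ∈ Algebra.adjoin ℂ S) : x * y = y * x := by
  have h1 : ∀ z ∈ S, ∀ w ∈ Algebra.adjoin ℂ S, z * w = w * z := by
    intro z hz w hw
    induction hw using Algebra.adjoin_induction with
    | mem w hw => exact hS z hz w hw
    | algebraMap r => exact (Algebra.commutes r z).symm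
    | add u v _ _ hu hv => rw [mul_add, add_mul, hu, hv]
    | mul u v _ _ hu hv => rw [← mul_assoc, hu, mul_assoc, hv, mul_assoc]
  induction hx using Algebra.adjoin_induction with
  | mem w hw => exact h1 w hw y hy
  | algebraMap r => exact Algebra.commutes r y
  | add u v _ _ hu hv => rw [add_mul, mul_add, hu, hv]
  | mul u v _ _ hu hv => rw [mul_assoc, hv, ← mul_assoc, hu, mul_assoc]

/-- faithful case: the configuration exists -/
theorem faithful_case (ρ : Representation ℂ G V) (σ : Representation ℂ G W)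
    (hρ : ρ.IsIrreducible) (hσ : σ.IsIrreducible) (hinj : ∀ g, ρ g = 1 → g = 1) {r s d : ℕ}
    (hcop : Nat.Coprime r s) (hrs : s < r) (hs : 0 < s) (hd : 0 < d)
    (hdeg1 : Module.finrank ℂ V = r * d) (hdeg2 : Module.finrank ℂ W = s * d)
    (hsemi : ∀ x, (s * ρ.character x - r * σ.character x) *
      (r * ρ.character x + s * σ.character x) = 0)
    (hcomm : ∀ a b a' b' : G, ρ (a * b * a⁻¹ * b⁻¹) * ρ (a' * b' * a'⁻¹ * b'⁻¹) =
      ρ (a' * b' * a'⁻¹ * b'⁻¹) * ρ (a * b * a⁻¹ * b⁻¹)) : False := by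
  haveI := irr_nontrivial ρ hρ
  have hdim : (Module.finrank ℂ V : ℂ) ≠ 0 := by
    have := Module.finrank_pos (R := ℂ) (M := V)
    exact_mod_cast this.ne'
  have hrc : (r : ℂ) ≠ 0 := by exact_mod_cast (by omega : r ≠ 0)
  have hsc : (s : ℂ) ≠ 0 := by exact_mod_cast (by omega : s ≠ 0)
  set S : Set (Module.End ℂ V) :=
    Set.range (fun p : G × G => ρ (p.1 * p.2 * p.1⁻¹ * p.2⁻¹)) with hS
  have hScomm : ∀ x ∈ S, ∀ y ∈ S, x * y = y * x := by
    rintro _ ⟨⟨a, b⟩, rfl⟩ _ ⟨⟨a', b'⟩, rfl⟩
    exact hcomm a b a' b'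
  set A := Algebra.adjoin ℂ S with hA
  let L : Subgroup G :=
    { carrier := {g | ρ g ∈ A}
      one_mem' := by
        change ρ 1 ∈ A
        rw [map_one]
        exact one_mem A
      mul_mem' := by
        intro a b ha hb
        change ρ (a * b) ∈ A
        rw [map_mul]
        exact mul_mem ha hb
      inv_mem' := by
        intro a ha
        change ρ a⁻¹ ∈ A
        have : a⁻¹ = a ^ (Nat.card G - 1) := by
          have hpos : 0 < Nat.card G := Nat.card_pos
          have h1 : a ^ (Nat.card G - 1) * a = 1 := by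
            rw [← pow_succ, Nat.sub_add_cancel hpos, pow_card_eq_one']
          exact (eq_inv_of_mul_eq_one_left h1).symm
        rw [this, map_pow]
        exact pow_mem ha _ }
  have hL : ∀ g, g ∈ L ↔ ρ g ∈ A := fun g => Iff.rfl
  have hder : ∀ g h : G, g * h * g⁻¹ * h⁻¹ ∈ L := by
    intro g h
    rw [hL]
    exact Algebra.subset_adjoin ⟨(g, h), rfl⟩
  have hoff1 : ∀ x ∉ L, ρ.character x = 0 := by
    intro x hx
    by_contra hne
    apply hx
    rw [← L.inv_mem_iff, hL]
    obtain ⟨c, hc, hc'⟩ := av_scalar ρ hρ (ρ x)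
    have hc0 : c ≠ 0 := by
      intro h0
      rw [h0, zero_mul] at hc'
      have h1 : (Nat.card G : ℂ) ≠ 0 := by exact_mod_cast Nat.card_pos.ne'
      exact mul_ne_zero h1 hne hc'.symm
    set B : Module.End ℂ V := ∑ g : G, ρ (x⁻¹ * g⁻¹ * x * g) with hB
    have hBA : B ∈ A := by
      apply sum_mem
      intro g _
      have := hder x⁻¹ g⁻¹
      rwa [inv_inv, inv_inv] at this
    have h1 : ρ x * B = c • (1 : Module.End ℂ V) := by
      rw [← hc, hB, Finset.mul_sum]
      unfold av
      refine Finset.sum_congr rfl fun g _ => ?_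
      rw [← map_mul, ← map_mul, ← map_mul]
      congr 1
      group
    have h2 : ρ x⁻¹ = c⁻¹ • B := by
      have h3 : ρ x⁻¹ * (ρ x * B) = B := by
        rw [← mul_assoc, ← map_mul, inv_mul_cancel, map_one, one_mul]
      rw [← h3, h1, mul_smul_comm, mul_one, smul_smul, inv_mul_cancel₀ hc0, one_smul]
    rw [h2]
    exact A.smul_mem hBA _
  have hoff2 : ∀ x ∉ L, σ.character x = 0 := by
    intro x hx
    have h1 := hsemi x
    rw [hoff1 x hx] at h1
    have h2 : (r : ℂ) * s * (σ.character x * σ.character x) = 0 := by linear_combination -h1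
    have h3 := (mul_eq_zero.mp h2).resolve_left (mul_ne_zero hrc hsc)
    exact mul_self_eq_zero.mp h3
  have hab : ∀ x ∈ L, ∀ y ∈ L, x * y = y * x := by
    intro x hx y hy
    have h1 : ρ (x * y) = ρ (y * x) := by
      rw [map_mul, map_mul]
      exact adjoin_comm hScomm hx hy
    have h2 : ρ ((y * x)⁻¹ * (x * y)) = 1 := by
      rw [map_mul, h1, ← map_mul, inv_mul_cancel, map_one]
    have h3 := hinj _ h2
    exact (inv_mul_eq_one.mp h3).symm
  exact Cfg.false (ρ := ρ) (σ := σ) (L := L) (r := r) (s := s) (d := d)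
    ⟨hρ, hσ, hinj, hab, hder, hoff1, hoff2, hcop, hrs, hs, hd, hdeg1, hdeg2, hsemi⟩

/-- the kernel of the larger character lies in the kernel of the smaller one -/
lemma ker_le (ρ : Representation ℂ G V) (σ : Representation ℂ G W) {r s d : ℕ}
    (hrs : s < r) (hs : 0 < s) (hd : 0 < d)
    (hdeg1 : Module.finrank ℂ V = r * d) (hdeg2 : Module.finrank ℂ W = s * d)
    (hsemi : ∀ x, (s * ρ.character x - r * σ.character x) *
      (r * ρ.character x + s * σ.character x) = 0) {z : G} (hz : ρ z = 1) : σ z = 1 := by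
  have hrc : (r : ℂ) ≠ 0 := by exact_mod_cast (by omega : r ≠ 0)
  have h1 : ρ.character z = r * d := by
    have : ρ.character z = LinearMap.trace ℂ V (ρ z) := rfl
    rw [this, hz, LinearMap.trace_one, hdeg1]
    push_cast
    ring
  have hpow : σ z ^ Nat.card G = 1 := by rw [← map_pow, pow_card_eq_one', map_one]
  have h2 := hsemi z
  rw [h1] at h2
  rcases mul_eq_zero.mp h2 with h3 | h3
  · apply eq_one_of_trace (σ z) Nat.card_pos hpow
    have h4 : (r : ℂ) * (σ.character z - s * d) = 0 := by linear_combination -h3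
    have h5 := (mul_eq_zero.mp h4).resolve_left hrc
    have : σ.character z = LinearMap.trace ℂ W (σ z) := rfl
    rw [← this, hdeg2]
    push_cast
    linear_combination h5
  · exfalso
    have h4 := norm_trace_le (σ z) Nat.card_pos hpow
    have h5 : (s : ℂ) * LinearMap.trace ℂ W (σ z) = -((r : ℂ) ^ 2 * d) := by
      have : σ.character z = LinearMap.trace ℂ W (σ z) := rfl
      rw [← this]
      linear_combination h3
    have h6 : (s : ℝ) * ‖LinearMap.trace ℂ W (σ z)‖ = (r : ℝ) ^ 2 * d := by
      have := congrArg norm h5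
      rw [norm_mul, norm_neg, norm_mul, norm_pow, Complex.norm_natCast, Complex.norm_natCast,
        Complex.norm_natCast] at this
      exact this
    rw [hdeg2] at h4
    push_cast at h4
    have h7 : (s : ℝ) < r := by exact_mod_cast hrs
    have h8 : (0 : ℝ) < s := by exact_mod_cast hs
    have h9 : (0 : ℝ) < d := by exact_mod_cast hd
    have h10 : (s : ℝ) * ‖LinearMap.trace ℂ W (σ z)‖ ≤ s * (s * d) :=
      mul_le_mul_of_nonneg_left h4 h8.le
    rw [h6] at h10
    have h11 : (s : ℝ) * s * d < r ^ 2 * d := by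
      apply mul_lt_mul_of_pos_right _ h9
      nlinarith
    nlinarith

theorem main_aux (ρ : Representation ℂ G V) (σ : Representation ℂ G W)
    (hρ : ρ.IsIrreducible) (hσ : σ.IsIrreducible) {r s d : ℕ}
    (hcop : Nat.Coprime r s) (hrs : s < r) (hs : 0 < s) (hd : 0 < d)
    (hdeg1 : Module.finrank ℂ V = r * d) (hdeg2 : Module.finrank ℂ W = s * d)
    (hsemi : ∀ x, (s * ρ.character x - r * σ.character x) *
      (r * ρ.character x + s * σ.character x) = 0)
    (hcomm : ∀ a b a' b' : G, ρ (a * b * a⁻¹ * b⁻¹) * ρ (a' * b' * a'⁻¹ * b'⁻¹) =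
      ρ (a' * b' * a'⁻¹ * b'⁻¹) * ρ (a * b * a⁻¹ * b⁻¹)) : False := by
  set N : Subgroup G := MonoidHom.ker ρ with hN
  have hker : ∀ z, z ∈ N → σ z = 1 := fun z hz =>
    ker_le ρ σ hrs hs hd hdeg1 hdeg2 hsemi hz
  set ρ' : Representation ℂ (G ⧸ N) V := QuotientGroup.lift N ρ (fun z hz => hz) with hρ'
  set σ' : Representation ℂ (G ⧸ N) W := QuotientGroup.lift N σ hker with hσ'
  have e1 : ∀ g : G, ρ' (QuotientGroup.mk g) = ρ g := fun g => rfl
  have e2 : ∀ g : G, σ' (QuotientGroup.mk g) = σ g := fun g => rfl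
  refine faithful_case ρ' σ' (irr_of_lift ρ hρ ρ' _ e1) (irr_of_lift σ hσ σ' _ e2) ?_ hcop hrs hs
    hd hdeg1 hdeg2 ?_ ?_
  · intro q hq
    obtain ⟨g, rfl⟩ := QuotientGroup.mk_surjective q
    rw [e1] at hq
    exact (QuotientGroup.eq_one_iff g).mpr hq
  · intro q
    obtain ⟨g, rfl⟩ := QuotientGroup.mk_surjective q
    exact hsemi g
  · intro a b a' b'
    obtain ⟨a, rfl⟩ := QuotientGroup.mk_surjective a
    obtain ⟨b, rfl⟩ := QuotientGroup.mk_surjective b
    obtain ⟨a', rfl⟩ := QuotientGroup.mk_surjective a'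
    obtain ⟨b', rfl⟩ := QuotientGroup.mk_surjective b'
    exact hcomm a b a' b'

/-- a simple object is irreducible -/
lemma irr_of_simple (V : FDRep ℂ G) (hV : CategoryTheory.Simple V) :
    Representation.IsIrreducible (V.ρ : Representation ℂ G V) := by
  haveI := hV
  haveI : Nontrivial (Subrepresentation V.ρ) := by
    refine ⟨⊥, ⊤, ?_⟩
    intro h
    obtain ⟨v, hv⟩ := Pool.Agent.Helper199.RepDim.simple_nonzero V
    have h1 : (⊥ : Submodule ℂ V) = ⊤ :=
      congrArg Subrepresentation.toSubmodule h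
    have h2 : v ∈ (⊥ : Submodule ℂ V) := by rw [h1]; trivial
    exact hv ((Submodule.mem_bot ℂ).mp h2)
  refine ⟨fun S => ?_⟩
  by_cases hS : S.toSubmodule = ⊥
  · left
    apply Subrepresentation.toSubmodule_injective
    exact hS
  · right
    apply Subrepresentation.toSubmodule_injective
    exact Pool.Agent.Helper199.RepDim.simple_top V S.toSubmodule
      (fun g w hw => S.apply_mem_toSubmodule g hw) hS

end Pool.Agent.H515.MB
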