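import Pool.Agent.H515.MB.LC

/-!
# Weights of an abelian normal subgroup
-/

set_option autoImplicit false
set_option linter.style.haveILetI false
set_option linter.unusedSectionVars false

open scoped BigOperators Classical
open Pool.Agent.H254R3.IN

noncomputable section

namespace Pool.Agent.H515.MB

variable {G : Type} [Group G] [Fintype G]
variable {V : Type} [AddCommGroup V] [Module ℂ V] [FiniteDimensional ℂ V]
variable (ρ : Representation ℂ G V)

/-- existence of a weight extending a given one -/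
lemma exists_ext {L L0 : Subgroup G} (hle : L0 ≤ L) (hab : ∀ x ∈ L, ∀ y ∈ L, x * y = y * x)
    {l0 : G → ℂ} (h0 : LC L0 l0) (hP : P ρ l0 ≠ 0) :
    ∃ l, LC L l ∧ P ρ l ≠ 0 ∧ ∀ y ∈ L0, l y = l0 y := by
  set U : Submodule ℂ V := LinearMap.range (P ρ l0) with hU
  have hcomm : ∀ y ∈ L, ρ y * P ρ l0 = P ρ l0 * ρ y := by
    intro y hy
    unfold P
    rw [Finset.mul_sum, Finset.sum_mul]
    refine Finset.sum_congr rfl fun x _ => ?_
    by_cases hx : x ∈ L0
    · rw [mul_smul_comm, smul_mul_assoc, ← map_mul, ← map_mul, hab y hy x (hle hx)]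
    · rw [h0.inv_off hx, zero_smul, mul_zero, zero_mul]
  have hst : ∀ y : L, ∀ u ∈ U, ρ y u ∈ U := by
    rintro ⟨y, hy⟩ u ⟨w, rfl⟩
    refine ⟨ρ y w, ?_⟩
    have := congrArg (fun S : Module.End ℂ V => S w) (hcomm y hy)
    exact this.symm
  haveI : Nontrivial U := by
    rw [Submodule.nontrivial_iff_ne_bot]
    intro h'
    exact hP (LinearMap.range_eq_bot.mp h')
  obtain ⟨v, hv0, hv⟩ := Pool.Agent.Helper493.Clifford.exists_common_eigenvector
    (fun y : L => (ρ y).restrict (hst y)) (by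
      rintro ⟨x, hx⟩ ⟨y, hy⟩
      unfold Commute SemiconjBy
      ext u
      have h1 : ρ x (ρ y u) = ρ y (ρ x u) := by
        have := congrArg (fun S : Module.End ℂ V => S (u : V))
          (show ρ x * ρ y = ρ y * ρ x by rw [← map_mul, ← map_mul, hab x hx y hy])
        exact this
      exact h1)
  choose c hc using hv
  have hv0' : (v : V) ≠ 0 := fun h' => hv0 (Subtype.ext h')
  have hc' : ∀ y : L, ρ y (v : V) = c y • (v : V) := by
    intro y
    have := congrArg (fun u : U => (u : V)) (hc y)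
    exact this
  have huniq : ∀ a b : ℂ, a • (v : V) = b • (v : V) → a = b := fun a b h' =>
    smul_left_injective ℂ hv0' h'
  set l : G → ℂ := fun x => if h : x ∈ L then c ⟨x, h⟩ else 0 with hl
  have hlv : ∀ x ∈ L, ρ x (v : V) = l x • (v : V) := by
    intro x hx
    rw [hl]
    simp only [dif_pos hx]
    exact hc' ⟨x, hx⟩
  have hLC : LC L l := by
    refine ⟨?_, ?_, ?_⟩
    · apply huniq
      rw [← hlv 1 L.one_mem, map_one, one_smul]
      rfl
    · intro x hx y hy
      apply huniq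
      rw [← hlv _ (L.mul_mem hx hy), map_mul]
      change ρ x (ρ y v) = _
      rw [hlv y hy, map_smul, hlv x hx, smul_smul, mul_comm]
    · intro x hx
      simp only [hl, dif_neg hx]
  refine ⟨l, hLC, ?_, ?_⟩
  · intro h'
    have h1 : P ρ l (v : V) = (Nat.card L : ℂ) • (v : V) := by
      unfold P
      rw [LinearMap.sum_apply, ← ip_self hLC, Finset.sum_smul]
      refine Finset.sum_congr rfl fun x _ => ?_
      rw [LinearMap.smul_apply]
      by_cases hx : x ∈ L
      · rw [hlv x hx, smul_smul]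
      · rw [hLC.inv_off hx, zero_smul, zero_mul, zero_smul]
    rw [h', LinearMap.zero_apply] at h1
    have h2 : (Nat.card L : ℂ) ≠ 0 := by exact_mod_cast Nat.card_pos.ne'
    exact (smul_ne_zero h2 hv0') h1.symm
  · intro y hy
    apply huniq
    rw [← hlv y (hle hy)]
    obtain ⟨w, hw⟩ := v.2
    rw [← hw]
    have := congrArg (fun S : Module.End ℂ V => S w) (rho_P ρ h0 hy)
    exact this

/-- existence of a weight -/
lemma exists_wt [Nontrivial V] {L : Subgroup G} (hab : ∀ x ∈ L, ∀ y ∈ L, x * y = y * x) :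
    ∃ l, LC L l ∧ P ρ l ≠ 0 := by
  have h0 : LC (⊥ : Subgroup G) (fun x => if x = 1 then 1 else 0) := by
    refine ⟨by simp, ?_, ?_⟩
    · intro x hx y hy
      rw [Subgroup.mem_bot] at hx hy
      simp [hx, hy]
    · intro x hx
      rw [Subgroup.mem_bot] at hx
      simp [hx]
  have hP : P ρ (fun x => if x = 1 then 1 else 0) ≠ 0 := by
    have : P ρ (fun x => if x = 1 then 1 else 0) = 1 := by
      unfold P
      rw [Finset.sum_eq_single 1]
      · simp
      · intro b _ hb
        simp [hb]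
      · intro h
        exact absurd (Finset.mem_univ _) h
    rw [this]
    exact one_ne_zero
  obtain ⟨l, h1, h2, -⟩ := exists_ext ρ bot_le hab h0 hP
  exact ⟨l, h1, h2⟩

/-- if the character vanishes off `L`, the trace of a projection is `|G| / χ(1)` -/
lemma trace_P_mul (hr : ρ.IsIrreducible) {L : Subgroup G} (hoff : ∀ x ∉ L, ρ.character x = 0)
    {l : G → ℂ} (h : LC L l) (hP : P ρ l ≠ 0) :
    LinearMap.trace ℂ V (P ρ l) * Module.finrank ℂ V = Nat.card G := by
  have hχ : IsIrr ρ.character := ⟨V, _, _, inferInstance, ρ, hr, rfl⟩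
  set T : Module.End ℂ V := ∑ x, ρ.character x⁻¹ • ρ x with hT
  obtain ⟨c, hc⟩ := schur ρ hr T (fun g v => by
    have : T * ρ g = ρ g * T := by
      rw [hT, Finset.sum_mul, Finset.mul_sum]
      have e1 : ∑ x, ρ.character x⁻¹ • ρ x * ρ g =
          ∑ x, ρ.character (g * x * g⁻¹)⁻¹ • ρ (g * x * g⁻¹) * ρ g :=
        (Equiv.sum_comp (MulAut.conj g).toEquiv fun x => ρ.character x⁻¹ • ρ x * ρ g).symm
      rw [e1]
      refine Finset.sum_congr rfl fun x _ => ?_
      have e2 : (g * x * g⁻¹)⁻¹ = g * x⁻¹ * g⁻¹ := by group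
      rw [e2, ρ.char_conj, smul_mul_assoc, mul_smul_comm, ← map_mul, ← map_mul]
      congr 2
      group
    exact congrArg (fun S : Module.End ℂ V => S v) this)
  have h1 : LinearMap.trace ℂ V T = Nat.card G := by
    rw [hT, map_sum]
    have := orth_sum hχ hχ
    rw [if_pos rfl] at this
    rw [← this]
    refine Finset.sum_congr rfl fun x _ => ?_
    rw [map_smul, smul_eq_mul, mul_comm]
    rfl
  have h2 : c * Module.finrank ℂ V = Nat.card G := by
    rw [← h1, hc, map_smul, smul_eq_mul, LinearMap.trace_id]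
  have h3 : T * P ρ l = LinearMap.trace ℂ V (P ρ l) • P ρ l := by
    have e1 : LinearMap.trace ℂ V (P ρ l) = ∑ x, l x * ρ.character x⁻¹ := by
      rw [trace_P, ← Equiv.sum_comp (Equiv.inv G)]
      refine Finset.sum_congr rfl fun x _ => ?_
      simp only [Equiv.inv_apply, inv_inv]
    rw [e1, hT, Finset.sum_mul, Finset.sum_smul]
    refine Finset.sum_congr rfl fun x _ => ?_
    by_cases hx : x ∈ L
    · rw [smul_mul_assoc, rho_P ρ h hx, smul_smul, mul_comm]
    · rw [hoff _ (fun h' => hx (L.inv_mem_iff.mp h')), zero_smul, zero_mul, mul_zero, zero_smul]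
  rw [hc, smul_mul_assoc] at h3
  have h4 : (c - LinearMap.trace ℂ V (P ρ l)) • P ρ l = 0 := by
    rw [sub_smul, ← h3, sub_eq_zero]
    rfl
  have h5 : c = LinearMap.trace ℂ V (P ρ l) := by
    rcases smul_eq_zero.mp h4 with h' | h'
    · linear_combination h'
    · exact absurd h' hP
  rw [← h5, h2]

/-- the index formula -/
lemma index_formula (hr : ρ.IsIrreducible) {L : Subgroup G} (hL : L.Normal)
    (hoff : ∀ x ∉ L, ρ.character x = 0) {l : G → ℂ} (h : LC L l) (hP : P ρ l ≠ 0) :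
    Nat.card (St l) * Nat.card L * Module.finrank ℂ V ^ 2 = Nat.card G ^ 2 := by
  obtain ⟨-, h1⟩ := av_P ρ hL hr h hP
  have h2 := trace_P_mul ρ hr hoff h hP
  have h3 : ((Nat.card (St l) * Nat.card L * Module.finrank ℂ V ^ 2 : ℕ) : ℂ) =
      (Nat.card G ^ 2 : ℕ) := by
    push_cast
    linear_combination (Module.finrank ℂ V : ℂ) * h1 + (Nat.card G : ℂ) * h2
  exact_mod_cast h3

/-- nondegeneracy of the commutator form -/
lemma nondeg (hr : ρ.IsIrreducible) {L : Subgroup G} (hL : L.Normal)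
    (hder : ∀ g h : G, g * h * g⁻¹ * h⁻¹ ∈ L)
    (hoff : ∀ x ∉ L, ρ.character x = 0) {l : G → ℂ} (h : LC L l) (hP : P ρ l ≠ 0) (x : G)
    (hx : ∀ g ∈ St l, l (x⁻¹ * g⁻¹ * x * g) = 1) : x ∈ L := by
  by_contra hxL
  haveI := irr_nontrivial ρ hr
  have h1 : LinearMap.trace ℂ V (ρ x * P ρ l) = 0 := by
    rw [trace_mul_P]
    apply Finset.sum_eq_zero
    intro y _
    by_cases hy : y ∈ L
    · rw [hoff _ (fun h' => hxL ((L.mul_mem_cancel_right hy).mp h')), mul_zero]
    · rw [h.inv_off hy, zero_mul]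
  obtain ⟨c, hc, hc'⟩ := av_scalar ρ hr (ρ x * P ρ l)
  rw [h1, mul_zero] at hc'
  have hd : (Module.finrank ℂ V : ℂ) ≠ 0 := by
    have := Module.finrank_pos (R := ℂ) (M := V)
    exact_mod_cast this.ne'
  have hc0 : c = 0 := (mul_eq_zero.mp hc').resolve_right hd
  rw [hc0, zero_smul] at hc
  have h2 : av ρ (ρ x * P ρ l) * P ρ l =
      ((Nat.card (St l) : ℂ) * Nat.card L) • (ρ x * P ρ l) := by
    unfold av
    rw [Finset.sum_mul]
    have e1 : ∀ g : G, ρ g⁻¹ * (ρ x * P ρ l) * ρ g * P ρ l =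
        if g ∈ St l then (Nat.card L : ℂ) • (ρ x * P ρ l) else 0 := by
      intro g
      have e2 : ρ g⁻¹ * (ρ x * P ρ l) * ρ g = ρ (g⁻¹ * x * g) * P ρ (cj g l) := by
        rw [← P_cj, map_mul, map_mul]
        have : ρ g * ρ g⁻¹ = 1 := by rw [← map_mul, mul_inv_cancel, map_one]
        calc ρ g⁻¹ * (ρ x * P ρ l) * ρ g = ρ g⁻¹ * ρ x * 1 * P ρ l * ρ g := by
              rw [mul_one]; simp only [mul_assoc]
          _ = ρ g⁻¹ * ρ x * ρ g * (ρ g⁻¹ * P ρ l * ρ g) := by
              rw [← this]; simp only [mul_assoc]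
      rw [e2, mul_assoc]
      split_ifs with hg
      · rw [cj_eq_iff.mpr hg, P_sq ρ h, mul_smul_comm]
        congr 1
        have e3 : g⁻¹ * x * g = x * (x⁻¹ * g⁻¹ * x * g) := by group
        have e4 : x⁻¹ * g⁻¹ * x * g ∈ L := by
          have := hder x⁻¹ g⁻¹
          rwa [inv_inv, inv_inv] at this
        rw [e3, map_mul, mul_assoc, rho_P ρ h e4, hx g hg, one_smul]
      · rw [P_mul_ne ρ (h.cj hL g) h (fun h' => hg (cj_eq_iff.mp h')), mul_zero]
    rw [Finset.sum_congr rfl fun g _ => e1 g, Finset.sum_ite, Finset.sum_const_zero, add_zero,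
      Finset.sum_const, ← smul_assoc]
    congr 1
    rw [nsmul_eq_mul, Nat.card_eq_fintype_card (α := St l), Fintype.card_subtype]
  rw [hc, zero_mul] at h2
  have hcc : ((Nat.card (St l) : ℂ) * Nat.card L) ≠ 0 := by
    have h2 : (Nat.card (St l) : ℂ) ≠ 0 := by exact_mod_cast Nat.card_pos.ne'
    have h3 : (Nat.card L : ℂ) ≠ 0 := by exact_mod_cast Nat.card_pos.ne'
    exact mul_ne_zero h2 h3
  have h3 := (smul_eq_zero.mp h2.symm).resolve_left hcc
  apply hP
  have : ρ x⁻¹ * (ρ x * P ρ l) = P ρ l := by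
    rw [← mul_assoc, ← map_mul, inv_mul_cancel, map_one, one_mul]
  rw [← this, h3, mul_zero]

end Pool.Agent.H515.MB
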